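import Pool.Agent.H376Z.Nik.Chain

set_option autoImplicit false
set_option linter.all false
set_option maxHeartbeats 400000

open Set Pool.Agent.Helper391.Gro

namespace Pool.Agent.H376Z.Nik

/-- sections -/
def sec (a : Set (ℕ × Y)) (k : ℕ) : Set Y := {y | (k, y) ∈ a}

/-- membership in the algebra -/
def InA (F : Om → Sq) (a : Set (ℕ × Y)) : Prop := ∃ α, ∃ K, ∀ k ≥ K, Sat (F α k) (sec a k)

/-- finitely many columns -/
def cols (T : Finset ℕ) (c : ℕ → Set Y) : Set (ℕ × Y) := {x | x.1 ∈ T ∧ x.2 ∈ c x.1}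

lemma InA.lift {F : Om → Sq} (hF : ∀ α β, α < β → RefS (F β) (F α)) {a : Set (ℕ × Y)} {α β : Om}
    (h : α < β) (ha : ∃ K, ∀ k ≥ K, Sat (F α k) (sec a k)) :
    ∃ K, ∀ k ≥ K, Sat (F β k) (sec a k) := by
  obtain ⟨K, hK⟩ := ha
  obtain ⟨L, hL⟩ := hF α β h
  exact ⟨max K L, fun k hk => (hK k (le_of_max_le_left hk)).ref (hL k (le_of_max_le_right hk))⟩

lemma InA.two {F : Om → Sq} (hF : ∀ α β, α < β → RefS (F β) (F α)) {a b : Set (ℕ × Y)}
    (ha : InA F a) (hb : InA F b) :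
    ∃ γ K, ∀ k ≥ K, Sat (F γ k) (sec a k) ∧ Sat (F γ k) (sec b k) := by
  obtain ⟨α, ha⟩ := ha
  obtain ⟨β, hb⟩ := hb
  obtain ⟨γ, hγ⟩ := bdd_of_countable ((countable_singleton β).insert α)
  obtain ⟨K, hK⟩ := InA.lift hF (hγ α (by simp)) ha
  obtain ⟨L, hL⟩ := InA.lift hF (hγ β (by simp)) hb
  exact ⟨γ, max K L, fun k hk => ⟨hK k (le_of_max_le_left hk), hL k (le_of_max_le_right hk)⟩⟩

lemma inA_cols (F : Om → Sq) (T : Finset ℕ) (c : ℕ → Set Y) : InA F (cols T c) := by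
  refine ⟨Classical.arbitrary Om, T.sup id + 1, fun k hk y y' _ hy => ?_⟩
  have : k ≤ T.sup id := Finset.le_sup (f := id) hy.1
  omega

/-- the algebra -/
def alg (F : Om → Sq) (hF : ∀ α β, α < β → RefS (F β) (F α)) :
    BooleanSubalgebra (Set (ℕ × Y)) where
  carrier := {a | InA F a}
  supClosed' := by
    intro a ha b hb
    obtain ⟨γ, K, h⟩ := InA.two hF ha hb
    exact ⟨γ, K, fun k hk y y' e hy =>
      hy.imp (fun h' => (h k hk).1 y y' e h') (fun h' => (h k hk).2 y y' e h')⟩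
  infClosed' := by
    intro a ha b hb
    obtain ⟨γ, K, h⟩ := InA.two hF ha hb
    exact ⟨γ, K, fun k hk y y' e hy => ⟨(h k hk).1 y y' e hy.1, (h k hk).2 y y' e hy.2⟩⟩
  compl_mem' := by
    rintro a ⟨α, K, h⟩
    exact ⟨α, K, fun k hk y y' e hy hy' => hy (h k hk y' y e.symm hy')⟩
  bot_mem' := ⟨Classical.arbitrary Om, 0, fun k _ y y' _ hy => hy⟩

theorem nikA (F : Om → Sq) (hF : ∀ α β, α < β → RefS (F β) (F α))
    (hC : ∀ μ : ℕ → ℕ → Set Y → ℝ, (∀ i k, Add (μ i k)) → (∀ i k, Bdd (μ i k)) →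
      (∀ i : ℕ, ∃ (T : Finset ℕ) (a : ℕ → Set Y), (∀ k ∈ T, i ≤ k) ∧
        (i : ℝ) < |∑ k ∈ T, μ i k (a k)|) → ∃ β, Cap (F β) μ)
    (μ : ℕ → Set (ℕ × Y) → ℝ)
    (hadd : ∀ n a b, InA F a → InA F b → Disjoint a b → μ n (a ∪ b) = μ n a + μ n b)
    (hb : ∀ n, Bdd (μ n)) (hp : ∀ a, ∃ K : ℝ, ∀ n, |μ n a| ≤ K) :
    ∃ K : ℝ, ∀ n a, InA F a → |μ n a| ≤ K := by
  classical
  let m : ℕ → ℕ → Set Y → ℝ := fun n k b => μ n (cols {k} fun _ => b)
  have m_add : ∀ n k, Add (m n k) := by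
    intro n k a b hab
    have : (cols {k} fun _ => a ∪ b) = (cols {k} fun _ => a) ∪ cols {k} fun _ => b := by
      ext x; simp only [cols, mem_setOf_eq, mem_union]; tauto
    simp only [m]
    rw [this]
    refine hadd n _ _ (inA_cols _ _ _) (inA_cols _ _ _) ?_
    rw [Set.disjoint_left]
    intro x h1 h2
    exact Set.disjoint_left.1 hab h1.2 h2.2
  have m_bdd : ∀ n k, Bdd (m n k) := fun n k => by
    obtain ⟨K, hK⟩ := hb n
    exact ⟨K, fun a => hK _⟩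
  have hM : ∀ k, ∃ K : ℝ, ∀ n a, |m n k a| ≤ K := fun k =>
    nik_set (fun n => m n k) (fun n => m_add n k) (fun n => m_bdd n k) fun T => hp _
  choose M hM using hM
  have hsum : ∀ n (T : Finset ℕ) (c : ℕ → Set Y), μ n (cols T c) = ∑ k ∈ T, m n k (c k) := by
    intro n T c
    induction T using Finset.induction_on with
    | empty =>
      have h1 := (m_add n 0).empty
      have : cols ∅ c = cols {0} fun _ => ∅ := by ext x; simp [cols]
      rw [this]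
      simpa using h1
    | insert k T hk ih =>
      have : cols (insert k T) c = (cols {k} fun _ => c k) ∪ cols T c := by
        ext x
        simp only [cols, mem_setOf_eq, mem_union, Finset.mem_insert, Finset.mem_singleton]
        constructor
        · rintro ⟨h | h, h'⟩
          · exact Or.inl ⟨h, h ▸ h'⟩
          · exact Or.inr ⟨h, h'⟩
        · rintro (⟨h, h'⟩ | ⟨h, h'⟩)
          · exact ⟨Or.inl h, h ▸ h'⟩
          · exact ⟨Or.inr h, h'⟩
      rw [this, hadd n _ _ (inA_cols _ _ _) (inA_cols _ _ _), ih, Finset.sum_insert hk]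
      rw [Set.disjoint_left]
      intro x h1 h2
      exact hk (Finset.mem_singleton.1 h1.1 ▸ h2.1)
  have hN : ∀ α, ∃ K : ℝ, ∀ n c, (∀ k, Sat (F α k) (sec c k)) → |μ n c| ≤ K := by
    intro α
    let f : ℕ × Y → ℕ × ℕ := fun x => (x.1, F α x.1 x.2)
    have hin : ∀ T : Set (ℕ × ℕ), InA F (f ⁻¹' T) := fun T =>
      ⟨α, 0, fun k _ y y' e hy => by
        have : f (k, y') = f (k, y) := by simp only [f, e]
        show f (k, y') ∈ T
        rw [this]; exact hy⟩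
    obtain ⟨K, hK⟩ := nik_set (fun n T => μ n (f ⁻¹' T))
      (fun n a b hab => hadd n _ _ (hin a) (hin b) (hab.preimage f))
      (fun n => by
        obtain ⟨K, hK⟩ := hb n
        exact ⟨K, fun a => hK _⟩) fun T => hp _
    refine ⟨K, fun n c hc => ?_⟩
    have : f ⁻¹' (f '' c) = c := by
      refine subset_antisymm ?_ (subset_preimage_image f c)
      rintro ⟨k, y⟩ ⟨⟨k', y'⟩, h1, h2⟩
      obtain ⟨rfl, h3⟩ := Prod.mk.inj h2
      exact hc k' y' y h3 h1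
    have h := hK n (f '' c)
    rwa [this] at h
  choose N hN using hN
  have case1 : ∃ K : ℝ, ∀ n (T : Finset ℕ) (c : ℕ → Set Y), |∑ k ∈ T, m n k (c k)| ≤ K := by
    by_contra hcon
    push Not at hcon
    have h1 : ∀ i : ℕ, ∃ n, ∃ (T : Finset ℕ) (a : ℕ → Set Y), (∀ k ∈ T, i ≤ k) ∧
        (i : ℝ) < |∑ k ∈ T, m n k (a k)| := by
      intro i
      obtain ⟨n, T, c, h⟩ := hcon (i + ∑ k ∈ Finset.range i, M k)
      refine ⟨n, T.filter (fun k => i ≤ k), c, fun k hk => (Finset.mem_filter.1 hk).2, ?_⟩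
      rw [← Finset.sum_filter_add_sum_filter_not T (fun k => i ≤ k)] at h
      have h2 : |∑ k ∈ T.filter (fun k => ¬ i ≤ k), m n k (c k)| ≤ ∑ k ∈ Finset.range i, M k := by
        refine (Finset.abs_sum_le_sum_abs _ _).trans ?_
        refine (Finset.sum_le_sum fun k _ => hM k n (c k)).trans ?_
        refine Finset.sum_le_sum_of_subset_of_nonneg ?_ fun k _ _ =>
          (abs_nonneg _).trans (hM k 0 ∅)
        intro k hk
        exact Finset.mem_range.2 (not_le.1 (Finset.mem_filter.1 hk).2)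
      have h3 := abs_add_le (∑ k ∈ T.filter (fun k => i ≤ k), m n k (c k))
        (∑ k ∈ T.filter (fun k => ¬ i ≤ k), m n k (c k))
      linarith
    choose n hn using h1
    obtain ⟨β, hβ⟩ := hC (fun i => m (n i)) (fun i k => m_add _ _) (fun i k => m_bdd _ _) hn
    obtain ⟨i, T, c, h1, h2⟩ := hβ (N β)
    rw [← hsum] at h2
    exact absurd (hN β (n i) (cols T c) fun k y y' e hy => ⟨hy.1, h1 k y y' e hy.2⟩) (not_le.2 h2)
  obtain ⟨K0, hK0⟩ := case1
  by_contra hcon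
  push Not at hcon
  choose n a ha1 ha2 using fun i : ℕ => hcon i
  choose α hα using ha1
  obtain ⟨β, hβ⟩ := bdd_of_countable (countable_range α)
  obtain ⟨i, hi⟩ := exists_nat_gt (K0 + N β)
  obtain ⟨K, hK⟩ := InA.lift hF (hβ _ (mem_range_self i)) (hα i)
  have hs : ∀ k, Sat (F β k) (sec {x ∈ a i | K ≤ x.1} k) := fun k y y' e hy =>
    ⟨hK k hy.2 y y' e hy.1, hy.2⟩
  have e1 : a i = cols (Finset.range K) (sec (a i)) ∪ {x ∈ a i | K ≤ x.1} := by
    ext x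
    simp only [cols, sec, mem_setOf_eq, mem_union, Finset.mem_range]
    constructor
    · intro h
      rcases lt_or_ge x.1 K with h' | h'
      · exact Or.inl ⟨h', h⟩
      · exact Or.inr ⟨h, h'⟩
    · rintro (h | h)
      · exact h.2
      · exact h.1
  have e2 := hadd (n i) _ _ (inA_cols F (Finset.range K) (sec (a i))) ⟨β, 0, fun k _ => hs k⟩ (by
    rw [Set.disjoint_left]
    intro x h1 h2
    exact absurd (Finset.mem_range.1 h1.1) (not_lt.2 h2.2))
  rw [← e1, hsum] at e2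
  have h1 := hK0 (n i) (Finset.range K) (sec (a i))
  have h2 := hN β (n i) _ hs
  have h3 := ha2 i
  rw [e2] at h3
  have h4 := abs_add_le (∑ k ∈ Finset.range K, m (n i) k (sec (a i) k))
    (μ (n i) {x ∈ a i | K ≤ x.1})
  linarith

theorem main (hD : Diamond) : ∃ (B : Type) (_ : BooleanAlgebra B),
    (∀ μ : ℕ → B → ℝ,
      (∀ n, (∀ a b : B, Disjoint a b → μ n (a ⊔ b) = μ n a + μ n b) ∧
        ∃ K : ℝ, ∀ a, |μ n a| ≤ K) →
      (∀ a, ∃ K : ℝ, ∀ n, |μ n a| ≤ K) →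
      ∃ K : ℝ, ∀ n a, |μ n a| ≤ K) ∧
    ∃ D : ℕ → Set B, Monotone D ∧ (∀ a, ∃ n, a ∈ D n) ∧
      ∀ n, ∃ μ : ℕ → B → ℝ,
        (∀ k, (∀ a b : B, Disjoint a b → μ k (a ⊔ b) = μ k a + μ k b) ∧
          ∃ K : ℝ, ∀ a, |μ k a| ≤ K) ∧
        (∀ a ∈ D n, ∃ K : ℝ, ∀ k, |μ k a| ≤ K) ∧
        ¬ ∃ K : ℝ, ∀ k a, |μ k a| ≤ K := by
  classical
  obtain ⟨F, hF1, hF2, hC⟩ := capture hD
  have hdis : ∀ a b : alg F hF2, Disjoint a b ↔ Disjoint a.1 b.1 := by
    intro a b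
    rw [disjoint_iff, disjoint_iff, Subtype.ext_iff]
    rfl
  refine ⟨alg F hF2, inferInstance, fun μ h1 h2 => ?_, fun n => {a | ∀ k ≥ n, sec a.1 k ∈ SS},
    fun n m h a ha k hk => ha k (h.trans hk), fun a => ?_, fun n => ?_⟩
  · obtain ⟨K, hK⟩ := nikA F hF2 hC (fun n a => if h : InA F a then μ n ⟨a, h⟩ else 0)
      (fun n a b ha hb hab => by
        have hu : InA F (a ∪ b) := (alg F hF2).supClosed' ha hb
        simp only [ha, hb, hu, dif_pos]
        exact (h1 n).1 ⟨a, ha⟩ ⟨b, hb⟩ ((hdis _ _).2 hab))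
      (fun n => by
        obtain ⟨K, hK⟩ := (h1 n).2
        refine ⟨K, fun a => ?_⟩
        by_cases h : InA F a
        · simp only [h, dif_pos]; exact hK _
        · simp only [h, dif_neg, not_false_iff, abs_zero]
          exact (abs_nonneg _).trans (hK ⊥))
      (fun a => by
        by_cases h : InA F a
        · obtain ⟨K, hK⟩ := h2 ⟨a, h⟩
          exact ⟨K, fun n => by simp only [h, dif_pos]; exact hK n⟩
        · exact ⟨0, fun n => by simp only [h, dif_neg, not_false_iff, abs_zero, le_refl]⟩)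
    refine ⟨K, fun n a => ?_⟩
    have ha : InA F a.1 := a.2
    have := hK n a.1 ha
    simp only [ha, dif_pos] at this
    exact this
  · obtain ⟨α, K, h⟩ : InA F a.1 := a.2
    exact ⟨K, fun k hk => (hF1 α k).sat (h k hk)⟩
  · refine ⟨fun j a => j * rho j (sec a.1 n), fun j => ⟨fun a b hab => ?_, j, fun a => ?_⟩,
      fun a ha => ?_, ?_⟩
    · have := rho_add j (sec a.1 n) (sec b.1 n) (by
        rw [Set.disjoint_left]
        intro y h1 h2
        exact Set.disjoint_left.1 ((hdis a b).1 hab) h1 h2)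
      rw [← mul_add, ← this]
      rfl
    · rw [abs_mul, Nat.abs_cast]
      exact mul_le_of_le_one_right (Nat.cast_nonneg j) (abs_rho_le_one _ _)
    · obtain ⟨j0, hj0⟩ := ha n le_rfl
      refine ⟨j0, fun j => ?_⟩
      rcases le_total j0 j with h | h
      · simp [hj0 j h]
      · rw [abs_mul, Nat.abs_cast]
        exact (mul_le_of_le_one_right (Nat.cast_nonneg j) (abs_rho_le_one _ _)).trans
          (by exact_mod_cast h)
    · rintro ⟨K, hK⟩
      obtain ⟨j, hj⟩ := exists_nat_gt (2 * K)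
      have := hK j ⟨cols {n} fun _ => univ ∩ half j, inA_cols _ _ _⟩
      have e : sec (cols {n} fun _ => univ ∩ half j) n = univ ∩ half j := by
        ext y; simp [sec, cols]
      simp only [e, rho_half] at this
      have := le_abs_self ((j : ℝ) * (1 / 2))
      linarith

theorem bridge (h : ∃ A : Ordinal.{0} → Set Ordinal.{0}, (∀ α, A α ⊆ Set.Iio α) ∧
    ∀ X : Set Ordinal.{0}, X ⊆ Set.Iio (Cardinal.aleph 1).ord →
      ∀ C : Set Ordinal.{0}, C ⊆ Set.Iio (Cardinal.aleph 1).ord →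
        (∀ β < (Cardinal.aleph 1).ord, ∃ γ ∈ C, β ≤ γ) →
        (∀ γ < (Cardinal.aleph 1).ord, 0 < γ →
          (∀ β < γ, ∃ δ ∈ C, β < δ ∧ δ < γ) → γ ∈ C) →
        ∃ α ∈ C, X ∩ Set.Iio α = A α) : Diamond := by
  obtain ⟨A, -, hA⟩ := h
  let φ : Set.Iio (Cardinal.aleph 1 : Cardinal.{0}).ord ≃o Om := Ordinal.ToType.mk
  refine ⟨fun a b => (φ.symm b).1 ∈ A (φ.symm a).1, fun S C hC => ?_⟩
  obtain ⟨α, ⟨hα, hαC⟩, hX⟩ := hA {x | ∃ h : x < (Cardinal.aleph 1).ord, S (φ ⟨x, h⟩)}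
    (fun x hx => hx.1) {x | ∃ h : x < (Cardinal.aleph 1).ord, C (φ ⟨x, h⟩)} (fun x hx => hx.1)
    (fun β hβ => by
      obtain ⟨b, h1, h2⟩ := hC.1 (φ ⟨β, hβ⟩)
      refine ⟨(φ.symm b).1, ⟨(φ.symm b).2, by simpa using h2⟩, ?_⟩
      exact (φ.lt_symm_apply.2 h1).le)
    (fun γ hγ h0 hl => by
      refine ⟨hγ, hC.2 _ ⟨φ ⟨0, h0.trans hγ⟩, φ.lt_iff_lt.2 h0⟩ fun b hb => ?_⟩
      obtain ⟨δ, ⟨h1, h2⟩, h3, h4⟩ := hl (φ.symm b).1 (φ.symm_apply_lt.2 hb)
      exact ⟨φ ⟨δ, h1⟩, ⟨φ.symm_apply_lt.1 h3, φ.lt_iff_lt.2 h4⟩, h2⟩)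
  refine ⟨φ ⟨α, hα⟩, hαC, fun b hb => ?_⟩
  simp only [OrderIso.symm_apply_apply]
  rw [← hX]
  constructor
  · intro h
    exact ⟨⟨(φ.symm b).2, by simpa using h⟩, φ.symm_apply_lt.2 hb⟩
  · rintro ⟨⟨_, h⟩, -⟩
    simpa using h

end Pool.Agent.H376Z.Nik
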