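import Mathlib

set_option autoImplicit false
set_option linter.all false

open Set

namespace Pool.Agent.H376Z.Nik

/-- finitely additive set functions -/
def Add {ι : Type} (l : Set ι → ℝ) : Prop :=
  ∀ a b : Set ι, Disjoint a b → l (a ∪ b) = l a + l b

/-- bounded set functions -/
def Bdd {ι : Type} (l : Set ι → ℝ) : Prop := ∃ K : ℝ, ∀ a, |l a| ≤ K

lemma Add.empty {ι : Type} {l : Set ι → ℝ} (h : Add l) : l ∅ = 0 := by
  have := h ∅ ∅ (by simp)
  simp at this
  exact this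

lemma Add.diff {ι : Type} {l : Set ι → ℝ} (h : Add l) {a b : Set ι} (hab : a ⊆ b) :
    l (b \ a) = l b - l a := by
  have := h a (b \ a) disjoint_sdiff_right
  rw [union_diff_cancel hab] at this
  linarith

/-- dependent choice -/
lemma dc {σ : Type} (P : σ → Prop) (R : ℕ → σ → σ → Prop) (s0 : σ) (h0 : P s0)
    (step : ∀ n s, P s → ∃ s', P s' ∧ R n s s') :
    ∃ f : ℕ → σ, f 0 = s0 ∧ ∀ n, P (f n) ∧ R n (f n) (f (n + 1)) := by
  choose g hg using step
  let F : ℕ → {s // P s} := fun n => Nat.rec ⟨s0, h0⟩ (fun n x => ⟨g n x.1 x.2, (hg n x.1 x.2).1⟩) n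
  refine ⟨fun n => (F n).1, rfl, fun n => ⟨(F n).2, ?_⟩⟩
  exact (hg n (F n).1 (F n).2).2

/-- the oscillation of `l` below `E` is at most `t` -/
def Osc {ι : Type} (l : Set ι → ℝ) (E : Set ι) (t : ℝ) : Prop :=
  ∀ G1 ⊆ E, ∀ G2 ⊆ E, l G1 - l G2 ≤ t

lemma halving {ι : Type} (P : Set ι → Prop)
    (hP : ∀ E, P E → ∃ E1 ⊆ E, ∃ E2 ⊆ E, Disjoint E1 E2 ∧ P E1 ∧ P E2)
    (l : Set ι → ℝ) (hl : Add l) (hb : Bdd l) (ε : ℝ) (hε : 0 < ε) (E : Set ι) (hE : P E) :
    ∃ E' ⊆ E, P E' ∧ Osc l E' ε := by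
  obtain ⟨K, hK⟩ := hb
  have key : ∀ n : ℕ, ∃ E' ⊆ E, P E' ∧ Osc l E' (2 * K * (1 / 2) ^ n) := by
    intro n
    induction n with
    | zero =>
      refine ⟨E, subset_rfl, hE, fun G1 _ G2 _ => ?_⟩
      have h1 := abs_le.1 (hK G1)
      have h2 := abs_le.1 (hK G2)
      simp only [pow_zero, mul_one]
      linarith [h1.2, h2.1]
    | succ n ih =>
      obtain ⟨E', hE', hPE', hO⟩ := ih
      obtain ⟨E1, h1, E2, h2, hd, hP1, hP2⟩ := hP E' hPE'
      by_cases hc : Osc l E1 (2 * K * (1 / 2) ^ (n + 1))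
      · exact ⟨E1, h1.trans hE', hP1, hc⟩
      · refine ⟨E2, h2.trans hE', hP2, fun H1 hH1 H2 hH2 => ?_⟩
        simp only [Osc, not_forall, not_le] at hc
        obtain ⟨G1, hG1, G2, hG2, hlt⟩ := hc
        have := hO (G1 ∪ H1) (union_subset (hG1.trans h1) (hH1.trans h2)) (G2 ∪ H2)
          (union_subset (hG2.trans h1) (hH2.trans h2))
        rw [hl G1 H1 (hd.mono hG1 hH1), hl G2 H2 (hd.mono hG2 hH2)] at this
        rw [pow_succ] at hlt ⊢
        linarith
  have hK0 : 0 ≤ K := (abs_nonneg _).trans (hK ∅)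
  obtain ⟨n, hn⟩ := exists_pow_lt_of_lt_one (show 0 < ε / (2 * K + 1) by positivity)
    (show (1 / 2 : ℝ) < 1 by norm_num)
  obtain ⟨E', hE', hPE', hO⟩ := key n
  refine ⟨E', hE', hPE', fun G1 h1 G2 h2 => (hO G1 h1 G2 h2).trans ?_⟩
  rw [lt_div_iff₀ (by positivity)] at hn
  have : (0 : ℝ) ≤ (1 / 2) ^ n := by positivity
  nlinarith

lemma infinite_split (H : Set ℕ) (hH : H.Infinite) :
    ∃ E1 ⊆ H, ∃ E2 ⊆ H, Disjoint E1 E2 ∧ E1.Infinite ∧ E2.Infinite := by
  let e := hH.natEmbedding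
  refine ⟨range fun n => (e (2 * n)).1, ?_, range fun n => (e (2 * n + 1)).1, ?_, ?_, ?_, ?_⟩
  · rintro _ ⟨n, rfl⟩; exact (e _).2
  · rintro _ ⟨n, rfl⟩; exact (e _).2
  · rw [Set.disjoint_left]
    rintro _ ⟨n, rfl⟩ ⟨m, hm⟩
    have := e.injective (Subtype.ext hm)
    omega
  · refine infinite_range_of_injective fun n m h => ?_
    have := e.injective (Subtype.ext h)
    omega
  · refine infinite_range_of_injective fun n m h => ?_
    have := e.injective (Subtype.ext h)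
    omega

lemma nik_nat (l : ℕ → Set ℕ → ℝ) (hl : ∀ i, Add (l i)) (hb : ∀ i, Bdd (l i))
    (hp : ∀ T, ∃ K : ℝ, ∀ i, |l i T| ≤ K) (hu : ∀ i : ℕ, (i : ℝ) < |l i {i}|) : False := by
  have step : ∀ (n : ℕ) (s : Set ℕ × Set ℕ), (s.2.Infinite ∧ Disjoint s.1 s.2) →
      ∃ s' : Set ℕ × Set ℕ, (s'.2.Infinite ∧ Disjoint s'.1 s'.2) ∧
        (s'.2 ⊆ s.2 ∧ s.1 ⊆ s'.1 ∧ s'.1 ⊆ s.1 ∪ s.2 ∧
          ∃ i, ∀ G ⊆ s'.2, (n : ℝ) < |l i (s'.1 ∪ G)|) := by
    rintro n ⟨F, H⟩ ⟨hH, hd⟩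
    simp only at hH hd
    obtain ⟨K, hK⟩ := hp F
    obtain ⟨M, hM⟩ := exists_nat_gt (K + n + 1)
    obtain ⟨i, hiH, hMi⟩ := hH.exists_gt M
    have hH' : (H \ {i}).Infinite := hH.diff (finite_singleton i)
    obtain ⟨H', hH'1, hH'2, hO⟩ := halving Set.Infinite infinite_split (l i) (hl i) (hb i) 1
      one_pos _ hH'
    have hiF : i ∉ F := fun h => Set.disjoint_left.1 hd h hiH
    have hd' : Disjoint (insert i F) H' := by
      rw [Set.disjoint_left]
      rintro x (rfl | hx) hx'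
      · exact (hH'1 hx').2 rfl
      · exact Set.disjoint_left.1 hd hx (hH'1 hx').1
    refine ⟨(insert i F, H'), ⟨hH'2, hd'⟩, fun x hx => (hH'1 hx).1, subset_insert _ _, ?_, i, ?_⟩
    · rintro x (rfl | hx)
      · exact Or.inr hiH
      · exact Or.inl hx
    · intro G hG
      simp only at hG ⊢
      rw [hl i _ _ (hd'.mono_right hG), insert_eq, hl i _ _ (by simpa using hiF)]
      have h1 := hO G hG ∅ (empty_subset _)
      have h2 := hO ∅ (empty_subset _) G hG
      rw [(hl i).empty] at h1 h2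
      have h3 := abs_le.1 (hK i)
      have h4 := hu i
      have h5 : (M : ℝ) < i := by exact_mod_cast hMi
      rcases lt_abs.1 h4 with h | h
      · exact lt_abs.2 (Or.inl (by linarith [h3.1]))
      · exact lt_abs.2 (Or.inr (by linarith [h3.2]))
  obtain ⟨f, -, hf⟩ := dc (fun s : Set ℕ × Set ℕ => s.2.Infinite ∧ Disjoint s.1 s.2) _ (∅, univ)
    ⟨infinite_univ, by simp⟩ step
  have hH : Antitone fun n => (f n).2 := antitone_nat_of_succ_le fun n => (hf n).2.1
  have hF : Monotone fun n => (f n).1 := monotone_nat_of_le_succ fun n => (hf n).2.2.1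
  have hFH : ∀ s t, (f t).1 ⊆ (f s).1 ∪ (f s).2 := by
    intro s t
    induction t with
    | zero => exact (hF (Nat.zero_le s)).trans subset_union_left
    | succ t ih =>
      rcases le_or_gt s t with h | h
      · exact (hf t).2.2.2.1.trans (union_subset ih ((hH h).trans subset_union_right))
      · exact (hF (Nat.succ_le_of_lt h)).trans subset_union_left
  obtain ⟨K, hK⟩ := hp (⋃ t, (f t).1)
  obtain ⟨n, hn⟩ := exists_nat_gt K
  obtain ⟨i, hi⟩ := (hf n).2.2.2.2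
  have := hi ((⋃ t, (f t).1) \ (f (n + 1)).1) (by
    rintro x ⟨hx, hx'⟩
    obtain ⟨t, ht⟩ := mem_iUnion.1 hx
    exact (hFH (n + 1) t ht).resolve_left hx')
  rw [union_diff_cancel (subset_iUnion (fun t => (f t).1) (n + 1))] at this
  linarith [hK i]

/-- Nikodym boundedness theorem for power sets -/
theorem nik_set {ι : Type} (μ : ℕ → Set ι → ℝ) (hl : ∀ i, Add (μ i)) (hb : ∀ i, Bdd (μ i))
    (hp : ∀ T, ∃ K : ℝ, ∀ i, |μ i T| ≤ K) : ∃ K : ℝ, ∀ n a, |μ n a| ≤ K := by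
  by_contra hcon
  let Unb : Set ι → Prop := fun E => ∀ K : ℝ, ∃ n, ∃ a ⊆ E, K < |μ n a|
  have h0 : Unb univ := by
    intro K
    by_contra h
    push Not at h
    exact hcon ⟨K, fun n a => h n a (subset_univ _)⟩
  have step : ∀ (i : ℕ) (E : Set ι), Unb E → ∃ E', Unb E' ∧
      (E' ⊆ E ∧ ∃ n, (i : ℝ) < |μ n (E \ E')|) := by
    intro i E hE
    obtain ⟨K, hK⟩ := hp E
    obtain ⟨n, a, ha, hlt⟩ := hE (i + K)
    have hK0 : 0 ≤ K := (abs_nonneg _).trans (hK 0)
    by_cases hc : Unb a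
    · refine ⟨a, hc, ha, n, ?_⟩
      rw [(hl n).diff ha]
      have h3 := abs_le.1 (hK n)
      rcases lt_abs.1 hlt with h | h
      · exact lt_abs.2 (Or.inr (by linarith [h3.2]))
      · exact lt_abs.2 (Or.inl (by linarith [h3.1]))
    · refine ⟨E \ a, ?_, diff_subset, n, ?_⟩
      · intro M
        simp only [Unb, not_forall, not_exists, not_and, not_lt] at hc
        obtain ⟨L, hL⟩ := hc
        obtain ⟨m, b, hbE, hb⟩ := hE (M + L)
        refine ⟨m, b \ a, diff_subset_diff_left hbE, ?_⟩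
        have h1 := hl m (b ∩ a) (b \ a) (disjoint_sdiff_right.mono_left inter_subset_right)
        rw [inter_union_diff] at h1
        have h2 := abs_le.1 (hL m (b ∩ a) inter_subset_right)
        rcases lt_abs.1 hb with h | h
        · exact lt_abs.2 (Or.inl (by linarith [h2.2]))
        · exact lt_abs.2 (Or.inr (by linarith [h2.1]))
      · rw [diff_diff_cancel_left ha]
        linarith
  obtain ⟨E, -, hE⟩ := dc Unb _ univ h0 step
  have hanti : Antitone E := antitone_nat_of_succ_le fun n => (hE n).2.1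
  choose n hn using fun i => (hE i).2.2
  let a : ℕ → Set ι := fun i => E i \ E (i + 1)
  have hda : ∀ i j, i ≠ j → Disjoint (a i) (a j) := by
    have : ∀ i j, i < j → Disjoint (a i) (a j) := by
      intro i j hij
      rw [Set.disjoint_left]
      intro x hx hx'
      exact hx.2 (hanti (Nat.succ_le_of_lt hij) hx'.1)
    intro i j hij
    rcases lt_or_gt_of_ne hij with h | h
    · exact this i j h
    · exact (this j i h).symm
  refine nik_nat (fun i T => μ (n i) (⋃ j ∈ T, a j)) ?_ ?_ ?_ ?_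
  · intro i T T' hT
    simp only
    rw [biUnion_union]
    refine hl _ _ _ ?_
    simp only [disjoint_iUnion_left, disjoint_iUnion_right]
    intro j hj k hk
    exact hda _ _ fun h => Set.disjoint_left.1 hT hk (h ▸ hj)
  · intro i
    obtain ⟨K, hK⟩ := hb (n i)
    exact ⟨K, fun T => hK _⟩
  · intro T
    obtain ⟨K, hK⟩ := hp (⋃ j ∈ T, a j)
    exact ⟨K, fun i => hK _⟩
  · intro i
    simpa using hn i

end Pool.Agent.H376Z.Nik
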