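import Pool.Agent.H376Z.Nik.Fin
import Pool.Agent.H376Z.Nik.SetN

set_option autoImplicit false
set_option linter.all false
set_option maxHeartbeats 400000

open Finset Filter Topology

namespace Pool.Agent.H376Z.Nik

/-- the disjoint union of the finite cubes -/
abbrev Y : Type := ℕ × Finset ℕ

/-- a nonprincipal ultrafilter -/
noncomputable abbrev U : Filter ℕ := (hyperfilter ℕ : Ultrafilter ℕ)

lemma U_le : U ≤ atTop := Nat.hyperfilter_le_atTop

open Classical in
/-- the level `N` part of a set -/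
noncomputable def slice (b : Set Y) (N : ℕ) : Finset (Finset ℕ) :=
  (cube N).filter fun s => (N, s) ∈ b

lemma mem_slice {b : Set Y} {N : ℕ} {s : Finset ℕ} : s ∈ slice b N ↔ s ∈ cube N ∧ (N, s) ∈ b := by
  simp [slice]

lemma slice_sub (b : Set Y) (N : ℕ) : slice b N ⊆ cube N := fun _ h => (mem_slice.1 h).1

/-- averages -/
noncomputable def av (b : Set Y) (f : Finset ℕ → ℝ) (N : ℕ) : ℝ := (∑ x ∈ slice b N, f x) / 2 ^ N

/-- limit of the averages -/
noncomputable def II (b : Set Y) (f : Finset ℕ → ℝ) : ℝ := limUnder U (av b f)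

lemma abs_av_le (b : Set Y) (f : Finset ℕ → ℝ) (hf : ∀ x, |f x| ≤ 1) (N : ℕ) :
    |av b f N| ≤ av b (fun _ => 1) N := by
  unfold av
  rw [abs_div, abs_of_pos (show (0 : ℝ) < 2 ^ N by positivity)]
  exact div_le_div_of_nonneg_right ((abs_sum_le_sum_abs _ _).trans (sum_le_sum fun x _ => hf x))
    (by positivity)

lemma av_mono {a b : Set Y} (h : a ⊆ b) (N : ℕ) : av a (fun _ => 1) N ≤ av b (fun _ => 1) N := by
  unfold av
  refine div_le_div_of_nonneg_right (sum_le_sum_of_subset_of_nonneg ?_ fun _ _ _ => zero_le_one)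
    (by positivity)
  intro x hx
  rw [mem_slice] at hx ⊢
  exact ⟨hx.1, h hx.2⟩

lemma slice_univ (N : ℕ) : slice Set.univ N = cube N := by
  ext x; simp [mem_slice]

lemma av_univ (N : ℕ) : av Set.univ (fun _ => 1) N = 1 := by
  unfold av
  rw [slice_univ, sum_const, nsmul_eq_mul, mul_one, card_cube]
  exact div_self (by positivity)

lemma abs_av_le_one (b : Set Y) (f : Finset ℕ → ℝ) (hf : ∀ x, |f x| ≤ 1) (N : ℕ) :
    |av b f N| ≤ 1 :=
  (abs_av_le b f hf N).trans ((av_mono (Set.subset_univ b) N).trans (av_univ N).le)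

lemma tendsto_II (b : Set Y) (f : Finset ℕ → ℝ) (hf : ∀ x, |f x| ≤ 1) :
    Tendsto (av b f) U (𝓝 (II b f)) := by
  apply tendsto_nhds_limUnder
  obtain ⟨x, -, hx⟩ := (isCompact_Icc (a := (-1 : ℝ)) (b := 1)).ultrafilter_le_nhds
    ((hyperfilter ℕ).map (av b f)) (by
      rw [le_principal_iff, Ultrafilter.coe_map, Filter.mem_map]
      exact univ_mem' fun N => abs_le.1 (abs_av_le_one b f hf N))
  exact ⟨x, hx⟩

lemma one_le (x : Finset ℕ) : |(fun _ : Finset ℕ => (1 : ℝ)) x| ≤ 1 := by simp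

lemma rad_le (j : ℕ) (x : Finset ℕ) : |rad j x| ≤ 1 := (abs_rad j x).le

lemma rad2_le (i j : ℕ) (x : Finset ℕ) : |rad i x * rad j x| ≤ 1 := by
  rw [abs_mul, abs_rad, abs_rad]; simp

lemma II_add (f : Finset ℕ → ℝ) (hf : ∀ x, |f x| ≤ 1) : Add fun b => II b f := by
  intro a b hab
  refine tendsto_nhds_unique (tendsto_II (a ∪ b) f hf) ?_
  refine ((tendsto_II a f hf).add (tendsto_II b f hf)).congr fun N => ?_
  classical
  unfold av
  rw [← add_div, ← sum_union]
  · congr 2
    ext x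
    simp only [mem_union, mem_slice, Set.mem_union]
    tauto
  · rw [Finset.disjoint_left]
    intro x hx hx'
    exact Set.disjoint_left.1 hab (mem_slice.1 hx).2 (mem_slice.1 hx').2

/-- the Rademacher coefficients -/
noncomputable def rho (j : ℕ) (b : Set Y) : ℝ := II b (rad j)

/-- the limit density -/
noncomputable def dens (b : Set Y) : ℝ := II b (fun _ => 1)

lemma rho_add (j : ℕ) : Add (rho j) := II_add _ (rad_le j)

lemma dens_add : Add dens := II_add _ one_le

lemma abs_rho_le (j : ℕ) (b : Set Y) : |rho j b| ≤ dens b :=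
  le_of_tendsto_of_tendsto' (tendsto_II b _ (rad_le j)).abs (tendsto_II b _ one_le)
    fun N => abs_av_le b _ (rad_le j) N

lemma dens_mono {a b : Set Y} (h : a ⊆ b) : dens a ≤ dens b :=
  le_of_tendsto_of_tendsto' (tendsto_II a _ one_le) (tendsto_II b _ one_le) fun N => av_mono h N

lemma dens_univ : dens Set.univ = 1 :=
  tendsto_nhds_unique (tendsto_II _ _ one_le) (tendsto_const_nhds.congr fun N => (av_univ N).symm)

lemma abs_rho_le_one (j : ℕ) (b : Set Y) : |rho j b| ≤ 1 :=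
  (abs_rho_le j b).trans ((dens_mono (Set.subset_univ b)).trans dens_univ.le)

lemma rho_null {u b : Set Y} (hu : ¬ 0 < dens u) (hb : b ⊆ u) (j : ℕ) : rho j b = 0 :=
  abs_nonpos_iff.1 ((abs_rho_le j b).trans ((dens_mono hb).trans (not_lt.1 hu)))

lemma rho_univ (j : ℕ) : rho j Set.univ = 0 := by
  refine tendsto_nhds_unique (tendsto_II _ _ (rad_le j)) (tendsto_const_nhds.congr' ?_)
  filter_upwards [U_le (eventually_gt_atTop j)] with N hN
  unfold av
  rw [slice_univ, sum_odd hN _ (rad_flp_self j), zero_div]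

/-- the positive half -/
def half (j : ℕ) : Set Y := {y | j ∈ y.2}

lemma rho_inter (j : ℕ) (E : Set Y) : rho j (E ∩ half j) = dens (E ∩ half j) := by
  unfold rho dens II
  congr 1
  funext N
  unfold av
  congr 1
  refine sum_congr rfl fun x hx => ?_
  have : j ∈ x := (mem_slice.1 hx).2.2
  simp [rad, this]

lemma rho_diff (j : ℕ) (E : Set Y) : rho j (E \ half j) = - dens (E \ half j) := by
  refine tendsto_nhds_unique (tendsto_II _ _ (rad_le j))
    ((tendsto_II _ _ one_le).neg.congr fun N => ?_)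
  unfold av
  rw [← neg_div, ← sum_neg_distrib]
  congr 1
  refine sum_congr rfl fun x hx => ?_
  have : j ∉ x := (mem_slice.1 hx).2.2
  simp [rad, this]

lemma split_half (j : ℕ) (E : Set Y) : dens (E ∩ half j) = (dens E + rho j E) / 2 ∧
    dens (E \ half j) = (dens E - rho j E) / 2 := by
  have hd : Disjoint (E ∩ half j) (E \ half j) :=
    Set.disjoint_sdiff_right.mono_left Set.inter_subset_right
  have h1 := rho_add j _ _ hd
  have h2 := dens_add _ _ hd
  rw [Set.inter_union_diff] at h1 h2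
  rw [rho_inter, rho_diff] at h1
  constructor <;> linarith

lemma rho_half (j : ℕ) : rho j (Set.univ ∩ half j) = 1 / 2 := by
  rw [rho_inter, (split_half j _).1, dens_univ, rho_univ]; norm_num

lemma av_eq (b : Set Y) (f : Finset ℕ → ℝ) (N : ℕ) :
    ∃ χ : Finset ℕ → ℝ, (∀ x, χ x ^ 2 ≤ 1) ∧
      ∀ f : Finset ℕ → ℝ, av b f N = (∑ x ∈ cube N, χ x * f x) / 2 ^ N := by
  classical
  refine ⟨fun x => if (N, x) ∈ b then 1 else 0, fun x => ?_, fun f => ?_⟩
  · by_cases h : (N, x) ∈ b <;> simp [h]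
  · unfold av slice
    rw [sum_filter]
    congr 1
    refine sum_congr rfl fun x _ => ?_
    by_cases h : (N, x) ∈ b <;> simp [h]

lemma bessel_rho (b : Set Y) (t : Finset ℕ) : ∑ j ∈ t, rho j b ^ 2 ≤ 1 := by
  refine le_of_tendsto (tendsto_finset_sum t fun j _ => (tendsto_II b _ (rad_le j)).pow 2) ?_
  filter_upwards [U_le (eventually_gt_atTop (t.sup id))] with N hN
  obtain ⟨χ, h1, h2⟩ := av_eq b (fun _ => 1) N
  simp only [h2]
  exact bessel_one N t (fun j hj => mem_range.2 ((le_sup (f := id) hj).trans_lt hN)) χ h1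

lemma bessel_pair (b : Set Y) (t : Finset (ℕ × ℕ)) (ht : ∀ p ∈ t, p.1 ≠ p.2) :
    ∑ p ∈ t, II b (fun x => rad p.1 x * rad p.2 x) ^ 2 ≤ 2 := by
  have key : ∀ t : Finset (ℕ × ℕ), (∀ p ∈ t, p.1 < p.2) →
      ∑ p ∈ t, II b (fun x => rad p.1 x * rad p.2 x) ^ 2 ≤ 1 := by
    intro t ht
    refine le_of_tendsto (tendsto_finset_sum t fun p _ =>
      (tendsto_II b _ (rad2_le p.1 p.2)).pow 2) ?_
    filter_upwards [U_le (eventually_gt_atTop (t.sup Prod.snd))] with N hN
    obtain ⟨χ, h1, h2⟩ := av_eq b (fun _ => 1) N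
    simp only [h2]
    exact bessel_two N t (fun p hp => ⟨ht p hp, (le_sup (f := Prod.snd) hp).trans_lt hN⟩) χ h1
  rw [← sum_filter_add_sum_filter_not t (fun p => p.1 < p.2)]
  have h1 := key (t.filter fun p => p.1 < p.2) fun p hp => (mem_filter.1 hp).2
  have h2 := key ((t.filter fun p => ¬ p.1 < p.2).map (Equiv.prodComm ℕ ℕ).toEmbedding) (by
    intro p hp
    obtain ⟨q, hq, rfl⟩ := mem_map.1 hp
    have := ht q (mem_filter.1 hq).1
    have := (mem_filter.1 hq).2
    show q.2 < q.1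
    omega)
  rw [sum_map] at h2
  have e : ∀ q : ℕ × ℕ, (fun x => rad ((Equiv.prodComm ℕ ℕ).toEmbedding q).1 x *
      rad ((Equiv.prodComm ℕ ℕ).toEmbedding q).2 x) = fun x => rad q.1 x * rad q.2 x := by
    intro q
    funext x
    exact mul_comm _ _
  simp only [e] at h2
  linarith

lemma tail {κ : Type} (g : κ → ℝ) (hg : ∀ k, 0 ≤ g k) (C : ℝ) (hC : ∀ t : Finset κ, ∑ k ∈ t, g k ≤ C)
    (η : ℝ) (hη : 0 < η) : ∃ s : Finset κ, ∀ t, Disjoint t s → ∑ k ∈ t, g k < η :=
  (summable_of_sum_le hg hC).vanishing (e := Set.Iio η) (Iio_mem_nhds hη)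

lemma big_split (E : Set Y) (hE : 0 < dens E) :
    ∃ E1 ⊆ E, ∃ E2 ⊆ E, Disjoint E1 E2 ∧ 0 < dens E1 ∧ 0 < dens E2 := by
  obtain ⟨s, hs⟩ := tail (fun j => rho j E ^ 2) (fun _ => sq_nonneg _) 1 (bessel_rho E)
    (dens E ^ 2) (by positivity)
  obtain ⟨j, hj⟩ := Infinite.exists_notMem_finset s
  have := hs {j} (by simpa using hj)
  rw [sum_singleton] at this
  have h := abs_lt_of_sq_lt_sq' this hE.le
  refine ⟨E ∩ half j, Set.inter_subset_left, E \ half j, Set.diff_subset,
    Set.disjoint_sdiff_right.mono_left Set.inter_subset_right, ?_, ?_⟩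
  · rw [(split_half j E).1]; linarith [h.1]
  · rw [(split_half j E).2]; linarith [h.2]

theorem star (E : Set Y) (hE : 0 < dens E) (D : Set Y) :
    ∃ G ⊆ E, ∃ j0, ∀ j ≥ j0, rho j D + rho j G = 0 := by
  classical
  set ε := dens E / 2 with hε
  have hε0 : 0 < ε := by positivity
  set c := ε ^ 2 / 16 with hc
  have hc0 : 0 < c := by positivity
  set a : ℕ → ℝ := fun j => - rho j D with ha
  obtain ⟨s1, hs1⟩ := tail (fun j => (a j - rho j E / 2) ^ 2) (fun _ => sq_nonneg _) 4 (by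
    intro t
    have h1 := bessel_rho D t
    have h2 := bessel_rho E t
    calc ∑ j ∈ t, (a j - rho j E / 2) ^ 2 ≤ ∑ j ∈ t, (2 * rho j D ^ 2 + 2 * rho j E ^ 2) :=
          sum_le_sum fun j _ => by
            simp only [ha]; nlinarith [sq_nonneg (rho j D - rho j E / 2), sq_nonneg (rho j E)]
      _ = 2 * ∑ j ∈ t, rho j D ^ 2 + 2 * ∑ j ∈ t, rho j E ^ 2 := by
            rw [sum_add_distrib, mul_sum, mul_sum]
      _ ≤ 4 := by linarith) ((c / 2) ^ 2) (by positivity)
  obtain ⟨s2, hs2⟩ := tail (fun p : ℕ × ℕ =>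
      if p.1 ≠ p.2 then II E (fun x => rad p.1 x * rad p.2 x) ^ 2 else 0)
    (fun p => by split_ifs <;> positivity) 2 (by
      intro t
      rw [← sum_filter]
      exact bessel_pair E _ fun p hp => (mem_filter.1 hp).2) (ε ^ 2 / 4) (by positivity)
  set j0 := max (s1.sup id) (s2.sup Prod.fst) + 1 with hj0
  let good : ℕ → ℕ → Prop := fun N J => ∃ G ⊆ slice E N,
    ∑ j ∈ Ico j0 J, (a j - (∑ x ∈ G, rad j x) / 2 ^ N) ^ 2 ≤ 1 / ((J : ℝ) + 1)
  have hgood : ∀ J, ∀ᶠ N in U, good N J := by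
    intro J
    have e1 : ∀ᶠ N in U, J ≤ N := U_le (eventually_ge_atTop J)
    have e2 : ∀ᶠ N in U, ε < av E (fun _ => 1) N :=
      (tendsto_II E _ one_le).eventually (lt_mem_nhds (by
        show ε < dens E
        linarith))
    have e3 : ∀ᶠ N in U, ∑ p ∈ (Ico j0 J).offDiag,
        av E (fun x => rad p.1 x * rad p.2 x) N ^ 2 < ε ^ 2 / 4 := by
      refine (tendsto_finset_sum _ fun p _ =>
        (tendsto_II E _ (rad2_le p.1 p.2)).pow 2).eventually (gt_mem_nhds ?_)
      have := hs2 (Ico j0 J).offDiag (by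
        rw [Finset.disjoint_left]
        intro p hp hp'
        have h1 := (mem_Ico.1 (mem_offDiag.1 hp).1).1
        have h2 : p.1 ≤ s2.sup Prod.fst := le_sup (f := Prod.fst) hp'
        omega)
      refine lt_of_eq_of_lt (sum_congr rfl fun p hp => ?_) this
      rw [if_pos (mem_offDiag.1 hp).2.2]
    have e4 : ∀ᶠ N in U, ∑ j ∈ Ico j0 J, (a j - av E (rad j) N / 2) ^ 2 < (c / 2) ^ 2 := by
      refine (tendsto_finset_sum _ fun j _ =>
        ((tendsto_const_nhds.sub ((tendsto_II E _ (rad_le j)).div_const 2)).pow 2)).eventually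
          (gt_mem_nhds ?_)
      exact hs1 (Ico j0 J) (by
        rw [Finset.disjoint_left]
        intro p hp hp'
        have h1 := (mem_Ico.1 hp).1
        have h2 : p ≤ s1.sup id := le_sup (f := id) hp'
        omega)
    have e5 : ∀ᶠ N in U, ((Ico j0 J).card : ℝ) / (2 * 2 ^ N) < 1 / ((J : ℝ) + 1) := by
      have : Tendsto (fun N : ℕ => ((Ico j0 J).card : ℝ) / (2 * 2 ^ N)) atTop (𝓝 0) := by
        refine tendsto_const_nhds.div_atTop ?_
        exact (tendsto_pow_atTop_atTop_of_one_lt one_lt_two).const_mul_atTop two_pos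
      exact U_le (this.eventually (gt_mem_nhds (by positivity)))
    filter_upwards [e1, e2, e3, e4, e5] with N h1 h2 h3 h4 h5
    have hI : Ico j0 J ⊆ range N := fun j hj => mem_range.2 ((mem_Ico.1 hj).2.trans_le h1)
    have hcard : ((slice E N).card : ℝ) ≤ 2 ^ N := by
      rw [← card_cube]; exact_mod_cast card_le_card (slice_sub E N)
    obtain ⟨G, hG, hG'⟩ := greedy (slice E N) (2 ^ N) (by positivity) (Ico j0 J) a c hc0.le hcard
      (khin N _ (slice_sub E N) _ hI ε hε0 (by simpa [av] using h2.le) h3.le) h4.le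
    exact ⟨G, hG, hG'.trans h5.le⟩
  have hch : ∀ N, ∃ G ⊆ slice E N, good N (Nat.findGreatest (good N) N) →
      ∑ j ∈ Ico j0 (Nat.findGreatest (good N) N), (a j - (∑ x ∈ G, rad j x) / 2 ^ N) ^ 2 ≤
        1 / (((Nat.findGreatest (good N) N : ℕ) : ℝ) + 1) := by
    intro N
    by_cases h : good N (Nat.findGreatest (good N) N)
    · obtain ⟨G, h1, h2⟩ := h
      exact ⟨G, h1, fun _ => h2⟩
    · exact ⟨∅, empty_subset _, fun h' => absurd h' h⟩
  choose G hG1 hG2 using hch
  refine ⟨{y | y.2 ∈ G y.1}, fun y hy => (mem_slice.1 (hG1 y.1 hy)).2, j0, fun j hj => ?_⟩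
  have hsl : ∀ N, slice {y : Y | y.2 ∈ G y.1} N = G N := by
    intro N
    ext x
    rw [mem_slice]
    exact ⟨fun h => h.2, fun h => ⟨slice_sub E N (hG1 N h), h⟩⟩
  have hle : ∀ J, j < J → (a j - rho j {y : Y | y.2 ∈ G y.1}) ^ 2 ≤ 1 / ((J : ℝ) + 1) := by
    intro J hJ
    refine le_of_tendsto ((tendsto_const_nhds.sub (tendsto_II _ _ (rad_le j))).pow 2) ?_
    filter_upwards [hgood J, U_le (eventually_ge_atTop J)] with N h1 h2
    have h3 : J ≤ Nat.findGreatest (good N) N := Nat.le_findGreatest h2 h1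
    have h4 := hG2 N (Nat.findGreatest_spec h2 h1)
    have h5 : (a j - (∑ x ∈ G N, rad j x) / 2 ^ N) ^ 2 ≤ _ :=
      (single_le_sum (f := fun j => (a j - (∑ x ∈ G N, rad j x) / 2 ^ N) ^ 2)
        (fun _ _ => sq_nonneg _) (mem_Ico.2 ⟨hj, hJ.trans_le h3⟩)).trans h4
    unfold av
    rw [hsl]
    refine h5.trans (one_div_le_one_div_of_le (by positivity) ?_)
    have : (J : ℝ) ≤ (Nat.findGreatest (good N) N : ℕ) := by exact_mod_cast h3
    linarith
  have h0 : (a j - rho j {y : Y | y.2 ∈ G y.1}) ^ 2 ≤ 0 := by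
    refine ge_of_tendsto tendsto_one_div_add_atTop_nhds_zero_nat ?_
    filter_upwards [eventually_gt_atTop j] with J hJ using hle J hJ
  have := pow_eq_zero_iff (two_ne_zero) |>.1 (le_antisymm h0 (sq_nonneg _))
  simp only [ha] at this
  linarith

end Pool.Agent.H376Z.Nik
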