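import Pool.Agent.H376Z.Nik.Part
import Pool.Agent.Helper391.Gro.P_diamond_prod
import Pool.Agent.Helper391.Gro.P_diamond_CH
import Pool.Agent.Helper391.Gro.P_club_closure

set_option autoImplicit false
set_option linter.all false
set_option maxHeartbeats 400000

open Set Pool.Agent.Helper391.Gro

namespace Pool.Agent.H376Z.Nik

/-- sequences of partitions -/
abbrev Sq : Type := ℕ → Y → ℕ

/-- all terms are good partitions -/
def GoodS (p : Sq) : Prop := ∀ k, Good (p k)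

/-- refinement from some index on -/
def RefS (q p : Sq) : Prop := ∃ K, ∀ k ≥ K, Ref (q k) (p k)

lemma RefS.rfl' (p : Sq) : RefS p p := ⟨0, fun k _ => Ref.rfl' _⟩

lemma RefS.trans {p q r : Sq} (h : RefS r q) (h' : RefS q p) : RefS r p := by
  obtain ⟨K, hK⟩ := h
  obtain ⟨L, hL⟩ := h'
  exact ⟨max K L, fun k hk => (hK k (le_of_max_le_left hk)).trans (hL k (le_of_max_le_right hk))⟩

lemma diag (β : Om) (hβ : ∃ b, b < β) (F : ∀ α, α < β → Sq)
    (hF : ∀ α (h : α < β) α' (h' : α' < β), α' < α → RefS (F α h) (F α' h')) :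
    ∃ d : ℕ → Iio β, ∀ α (h : α < β), RefS (fun k => F (d k).1 (d k).2 k) (F α h) := by
  classical
  have hF' : ∀ α α' : Iio β, α' ≤ α → RefS (F α.1 α.2) (F α'.1 α'.2) := by
    intro α α' h
    rcases h.eq_or_lt with rfl | h
    · exact RefS.rfl' _
    · exact hF _ _ _ _ h
  haveI : Countable (Iio β) := (countable_Iio β).to_subtype
  haveI : Nonempty (Iio β) := by
    obtain ⟨b, hb⟩ := hβ
    exact ⟨⟨b, hb⟩⟩
  obtain ⟨s, hs⟩ := exists_surjective_nat (Iio β)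
  let P : ℕ → ℕ → Prop := fun k i => ∃ γ : Iio β, ∀ j ≤ i, Ref (F γ.1 γ.2 k) (F (s j).1 (s j).2 k)
  have hP : ∀ i, ∃ γ : Iio β, ∃ K, ∀ k ≥ K, ∀ j ≤ i,
      Ref (F γ.1 γ.2 k) (F (s j).1 (s j).2 k) := by
    intro i
    induction i with
    | zero =>
      refine ⟨s 0, 0, fun k _ j hj => ?_⟩
      obtain rfl := Nat.le_zero.1 hj
      exact Ref.rfl' _
    | succ i ih =>
      obtain ⟨γ, K, hK⟩ := ih
      obtain ⟨K1, h1⟩ := hF' (max γ (s (i + 1))) γ (le_max_left _ _)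
      obtain ⟨K2, h2⟩ := hF' (max γ (s (i + 1))) (s (i + 1)) (le_max_right _ _)
      refine ⟨max γ (s (i + 1)), K + K1 + K2, fun k hk j hj => ?_⟩
      rcases hj.eq_or_lt with rfl | hj
      · exact h2 k (by omega)
      · exact (h1 k (by omega)).trans (hK k (by omega) j (by omega))
  have h0 : ∀ k, P k (Nat.findGreatest (P k) k) := by
    intro k
    refine Nat.findGreatest_spec (Nat.zero_le k) ⟨s 0, fun j hj => ?_⟩
    obtain rfl := Nat.le_zero.1 hj
    exact Ref.rfl' _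
  choose d hd using h0
  refine ⟨d, fun α h => ?_⟩
  obtain ⟨j, hj⟩ := hs ⟨α, h⟩
  obtain ⟨γ, K, hK⟩ := hP j
  refine ⟨K + j, fun k hk => ?_⟩
  have := hd k j (Nat.le_findGreatest (by omega) ⟨γ, hK k (by omega)⟩)
  rw [hj] at this
  exact this

lemma upper (β : Om) (F : ∀ α, α < β → Sq) (hG : ∀ α (h : α < β), GoodS (F α h))
    (hF : ∀ α (h : α < β) α' (h' : α' < β), α' < α → RefS (F α h) (F α' h')) :
    ∃ q, GoodS q ∧ ∀ α (h : α < β), RefS q (F α h) := by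
  by_cases hβ : ∃ b, b < β
  · obtain ⟨d, hd⟩ := diag β hβ F hF
    exact ⟨_, fun k => hG _ _ k, hd⟩
  · exact ⟨fun _ _ => 0, fun _ => good_zero, fun α h => absurd ⟨α, h⟩ hβ⟩

theorem chain (Q : Om → Sq → Prop) : ∃ F : Om → Sq, (∀ β, GoodS (F β)) ∧
    (∀ α β, α < β → RefS (F β) (F α)) ∧
    ∀ β, (∃ q, GoodS q ∧ (∀ α < β, RefS q (F α)) ∧ Q β q) → Q β (F β) := by
  classical
  have st : ∀ (β : Om) (f : ∀ α, α < β → Sq), ∃ q : Sq,
      ((∃ q, GoodS q ∧ ∀ α (h : α < β), RefS q (f α h)) →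
        GoodS q ∧ ∀ α (h : α < β), RefS q (f α h)) ∧
      ((∃ q, GoodS q ∧ (∀ α (h : α < β), RefS q (f α h)) ∧ Q β q) → Q β q) := by
    intro β f
    by_cases h1 : ∃ q, GoodS q ∧ (∀ α (h : α < β), RefS q (f α h)) ∧ Q β q
    · obtain ⟨q, a, b, c⟩ := h1
      exact ⟨q, fun _ => ⟨a, b⟩, fun _ => c⟩
    · by_cases h2 : ∃ q, GoodS q ∧ ∀ α (h : α < β), RefS q (f α h)
      · obtain ⟨q, a, b⟩ := h2
        exact ⟨q, fun _ => ⟨a, b⟩, fun h => absurd h h1⟩
      · exact ⟨fun _ _ => 0, fun h => absurd h h2, fun h => absurd h h1⟩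
  choose step hs1 hs2 using st
  let F : Om → Sq := (wellFounded_lt (α := Om)).fix step
  have hF : ∀ β, F β = step β (fun α _ => F α) := fun β => WellFounded.fix_eq _ _ _
  have main : ∀ β, GoodS (F β) ∧ ∀ α, α < β → RefS (F β) (F α) := by
    intro β
    induction β using (wellFounded_lt (α := Om)).induction with
    | _ β ih =>
      rw [hF β]
      exact hs1 β (fun α _ => F α) (upper β (fun α _ => F α) (fun α h => (ih α h).1)
        fun α h α' _ h' => (ih α h).2 α' h')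
  refine ⟨F, fun β => (main β).1, fun α β h => (main β).2 α h, fun β h => ?_⟩
  rw [hF β]
  exact hs2 β (fun α _ => F α) h

/-- coding of a double sequence of set functions -/
def code (e : Om → Set Y) (μ : ℕ → ℕ → Set Y → ℝ) : Set (Om × ℕ) :=
  {x | ∃ (i k : ℕ) (q : ℚ), x.2 = Encodable.encode (i, k, q) ∧ μ i k (e x.1) < q}

lemma code_eq (e : Om → Set Y) (μ μ' : ℕ → ℕ → Set Y → ℝ) (b : Om)
    (h : ∀ n, (b, n) ∈ code e μ ↔ (b, n) ∈ code e μ') (i k : ℕ) : μ i k (e b) = μ' i k (e b) := by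
  have key : ∀ (μ : ℕ → ℕ → Set Y → ℝ) (q : ℚ),
      (b, Encodable.encode (i, k, q)) ∈ code e μ ↔ μ i k (e b) < q := by
    intro μ q
    constructor
    · rintro ⟨i', k', q', h1, h2⟩
      have := Encodable.encode_injective h1
      simp only [Prod.mk.injEq] at this
      obtain ⟨rfl, rfl, rfl⟩ := this
      exact h2
    · intro h
      exact ⟨i, k, q, rfl, h⟩
  refine le_antisymm (not_lt.1 fun hlt => ?_) (not_lt.1 fun hlt => ?_)
  · obtain ⟨q, h1, h2⟩ := exists_rat_btwn hlt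
    exact lt_asymm h2 ((key μ q).1 ((h _).2 ((key μ' q).2 h1)))
  · obtain ⟨q, h1, h2⟩ := exists_rat_btwn hlt
    exact lt_asymm h2 ((key μ' q).1 ((h _).1 ((key μ q).2 h1)))

/-- the sequence of partitions `p` sees that `μ` is unbounded -/
def Cap (p : Sq) (μ : ℕ → ℕ → Set Y → ℝ) : Prop :=
  ∀ M : ℝ, ∃ (i : ℕ) (T : Finset ℕ) (c : ℕ → Set Y), (∀ k, Sat (p k) (c k)) ∧
    M < |∑ k ∈ T, μ i k (c k)|

theorem capture (hD : Diamond) : ∃ F : Om → Sq, (∀ β, GoodS (F β)) ∧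
    (∀ α β, α < β → RefS (F β) (F α)) ∧
    ∀ μ : ℕ → ℕ → Set Y → ℝ, (∀ i k, Add (μ i k)) → (∀ i k, Bdd (μ i k)) →
      (∀ i : ℕ, ∃ (T : Finset ℕ) (a : ℕ → Set Y), (∀ k ∈ T, i ≤ k) ∧
        (i : ℝ) < |∑ k ∈ T, μ i k (a k)|) → ∃ β, Cap (F β) μ := by
  classical
  obtain ⟨G, hG⟩ := diamond_prod hD
  obtain ⟨B, hB⟩ := diamond_CH hD
  let e : Om → Set Y := fun a => Encodable.encode ⁻¹' B a
  have he : ∀ b : Set Y, ∃ a, e a = b := by
    intro b
    obtain ⟨a, ha⟩ := hB (Encodable.encode '' b)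
    exact ⟨a, by simp only [e]; rw [ha, preimage_image_eq _ Encodable.encode_injective]⟩
  choose idx hidx using he
  obtain ⟨F, hF1, hF2, hF3⟩ := chain fun β q => ∀ μ : ℕ → ℕ → Set Y → ℝ,
    (∀ b < β, ∀ n : ℕ, ((b, n) ∈ code e μ ↔ (b, n) ∈ G β)) → Cap q μ
  refine ⟨F, hF1, hF2, fun μ hl hb hu => ?_⟩
  choose T a hT ha using hu
  have h1 : ∀ (α : Om) (k : ℕ), ∃ q, Good q ∧ Ref q (F α k) ∧ ∃ b : ℕ → Set Y,
      ∀ i ≤ k, Sat q (b i) ∧ |μ i k (b i) - μ i k (a i k)| ≤ (1 / 2) ^ k := by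
    intro α k
    obtain ⟨q, h1, h2, h3⟩ := refineN (hF1 α k) (fun i => μ i k) (fun i => hl i k)
      (fun i => hb i k) (fun i => a i k) ((1 / 2) ^ k) (by positivity) (k + 1)
    choose! b hb using h3
    exact ⟨q, h1, h2, b, fun i hi => hb i (Nat.lt_succ_of_le hi)⟩
  choose ρ hρ1 hρ2 b hb using h1
  have h2 : ∀ α : Om, ∃ γ : Om, ∀ k i, idx (b α k i) < γ := by
    intro α
    obtain ⟨γ, hγ⟩ := bdd_of_countable (countable_range fun x : ℕ × ℕ => idx (b α x.1 x.2))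
    exact ⟨γ, fun k i => hγ _ ⟨(k, i), rfl⟩⟩
  choose g hg using h2
  obtain ⟨β, ⟨hlim, hcl⟩, hβ⟩ := hG (code e μ) _ (club_closure g)
  refine ⟨β, hF3 β ?_ μ hβ⟩
  obtain ⟨d, hd⟩ := diag β hlim.1 (fun α _ => F α) fun α _ α' _ h => hF2 α' α h
  refine ⟨fun k => ρ (d k).1 k, fun k => hρ1 _ _, fun α h =>
    RefS.trans (q := fun k => F (d k).1 k) ⟨0, fun k _ => hρ2 _ _⟩ (hd α h), fun μ' hμ' M => ?_⟩
  obtain ⟨i, hi⟩ := exists_nat_gt (M + 2)
  refine ⟨i, T i, fun k => if i ≤ k then b (d k).1 k i else ∅, fun k => ?_, ?_⟩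
  · by_cases h : i ≤ k
    · simp only [h, if_true]
      exact (hb _ _ i h).1
    · simp only [h, if_false]
      exact sat_empty _
  · have e1 : ∑ k ∈ T i, μ' i k (if i ≤ k then b (d k).1 k i else ∅) =
        ∑ k ∈ T i, μ i k (b (d k).1 k i) := by
      refine Finset.sum_congr rfl fun k hk => ?_
      rw [if_pos (hT i k hk), ← hidx (b (d k).1 k i)]
      have hlt : idx (b (d k).1 k i) < β := (hg _ k i).trans (hcl _ (d k).2)
      exact code_eq e μ' μ _ (fun n => (hμ' _ hlt n).trans (hβ _ hlt n).symm) i k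
    have e2 : |∑ k ∈ T i, μ i k (b (d k).1 k i) - ∑ k ∈ T i, μ i k (a i k)| ≤ 2 := by
      rw [← Finset.sum_sub_distrib]
      refine (Finset.abs_sum_le_sum_abs _ _).trans ?_
      refine (Finset.sum_le_sum fun k hk => (hb _ k i (hT i k hk)).2).trans ?_
      exact sum_le_hasSum _ (fun _ _ => by positivity) hasSum_geometric_two
    rw [e1]
    have h3 := ha i
    have h4 := abs_sub_abs_le_abs_sub (∑ k ∈ T i, μ i k (a i k))
      (∑ k ∈ T i, μ i k (b (d k).1 k i))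
    rw [abs_sub_comm] at h4
    linarith

end Pool.Agent.H376Z.Nik
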