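import Mathlib

set_option autoImplicit false
set_option linter.all false
set_option maxHeartbeats 400000

open Finset

namespace Pool.Agent.H376Z.Nik

/-- Rademacher functions on finite sets of naturals -/
noncomputable def rad (j : ℕ) (s : Finset ℕ) : ℝ := if j ∈ s then 1 else -1

/-- the cube of level `N` -/
def cube (N : ℕ) : Finset (Finset ℕ) := (range N).powerset

lemma card_cube (N : ℕ) : ((cube N).card : ℝ) = 2 ^ N := by
  simp [cube]

lemma rad_sq (j : ℕ) (s : Finset ℕ) : rad j s ^ 2 = 1 := by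
  unfold rad; split_ifs <;> norm_num

lemma rad_mul_self (j : ℕ) (s : Finset ℕ) : rad j s * rad j s = 1 := by
  rw [← sq, rad_sq]

lemma abs_rad (j : ℕ) (s : Finset ℕ) : |rad j s| = 1 := by
  unfold rad; split_ifs <;> norm_num

/-- flip one coordinate -/
def flp (j : ℕ) (s : Finset ℕ) : Finset ℕ := symmDiff s {j}

lemma flp_flp (j : ℕ) (s : Finset ℕ) : flp j (flp j s) = s := by
  simp [flp]

lemma flp_mem {N j : ℕ} (hj : j < N) {s : Finset ℕ} (hs : s ∈ cube N) : flp j s ∈ cube N := by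
  simp only [cube, mem_powerset] at hs ⊢
  intro x hx
  simp only [flp, mem_symmDiff, mem_singleton] at hx
  rcases hx with h | h
  · exact hs h.1
  · rw [h.1]; exact mem_range.2 hj

lemma rad_flp_self (j : ℕ) (s : Finset ℕ) : rad j (flp j s) = - rad j s := by
  unfold rad
  by_cases h : j ∈ s <;> simp [flp, mem_symmDiff, h]

lemma rad_flp_ne {i j : ℕ} (h : i ≠ j) (s : Finset ℕ) : rad i (flp j s) = rad i s := by
  unfold rad
  by_cases h' : i ∈ s <;> simp [flp, mem_symmDiff, h, h']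

lemma sum_odd {N j : ℕ} (hj : j < N) (f : Finset ℕ → ℝ) (hf : ∀ s, f (flp j s) = - f s) :
    ∑ s ∈ cube N, f s = 0 := by
  have : ∑ s ∈ cube N, f s = ∑ s ∈ cube N, f (flp j s) :=
    Finset.sum_nbij' (flp j) (flp j) (fun s hs => flp_mem hj hs) (fun s hs => flp_mem hj hs)
      (fun s _ => flp_flp j s) (fun s _ => flp_flp j s) (fun s _ => by rw [flp_flp])
  simp only [hf, sum_neg_distrib] at this
  linarith

/-- Rademacher sums -/
noncomputable def rs (I : Finset ℕ) (z : ℕ → ℝ) (s : Finset ℕ) : ℝ := ∑ j ∈ I, z j * rad j s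

lemma rs_flp {I : Finset ℕ} {i : ℕ} (hi : i ∉ I) (z : ℕ → ℝ) (s : Finset ℕ) :
    rs I z (flp i s) = rs I z s :=
  Finset.sum_congr rfl fun j hj => by
    rw [rad_flp_ne (show j ≠ i from fun h => hi (h ▸ hj))]

lemma moments (N : ℕ) (z : ℕ → ℝ) (I : Finset ℕ) (hI : I ⊆ range N) :
    ∑ s ∈ cube N, rs I z s ^ 2 = 2 ^ N * ∑ j ∈ I, z j ^ 2 ∧
    ∑ s ∈ cube N, rs I z s ^ 4 ≤ 3 * 2 ^ N * (∑ j ∈ I, z j ^ 2) ^ 2 := by
  induction I using Finset.induction_on with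
  | empty => simp [rs]
  | insert i I hi ih =>
    obtain ⟨h2, h4⟩ := ih ((subset_insert _ _).trans hI)
    have hiN : i < N := mem_range.1 (hI (mem_insert_self _ _))
    have e : ∀ s, rs (insert i I) z s = z i * rad i s + rs I z s := fun s => by
      simp [rs, sum_insert hi]
    have o1 : ∑ s ∈ cube N, rad i s * (2 * z i * rs I z s) = 0 :=
      sum_odd hiN _ fun s => by rw [rad_flp_self, rs_flp hi]; ring
    have o2 : ∑ s ∈ cube N, rad i s * (4 * z i ^ 3 * rs I z s + 4 * z i * rs I z s ^ 3) = 0 :=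
      sum_odd hiN _ fun s => by rw [rad_flp_self, rs_flp hi]; ring
    have e2 : ∀ s, rs (insert i I) z s ^ 2 =
        z i ^ 2 + rs I z s ^ 2 + rad i s * (2 * z i * rs I z s) := fun s => by
      rw [e]
      have := rad_sq i s
      linear_combination (z i ^ 2) * this
    have e4 : ∀ s, rs (insert i I) z s ^ 4 =
        z i ^ 4 + 6 * z i ^ 2 * rs I z s ^ 2 + rs I z s ^ 4 +
          rad i s * (4 * z i ^ 3 * rs I z s + 4 * z i * rs I z s ^ 3) := fun s => by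
      rw [e]
      have := rad_sq i s
      linear_combination (z i ^ 4 * (rad i s ^ 2 + 1) + 4 * z i ^ 3 * rad i s * rs I z s +
        6 * z i ^ 2 * rs I z s ^ 2) * this
    rw [sum_insert hi]
    constructor
    · simp only [e2, sum_add_distrib, o1, h2, sum_const, nsmul_eq_mul, card_cube]
      ring
    · simp only [e4, sum_add_distrib, o2, sum_const, nsmul_eq_mul, card_cube, ← mul_sum, h2]
      have hp : (0 : ℝ) < 2 ^ N := by positivity
      have : 0 ≤ 2 ^ N * z i ^ 4 := by positivity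
      nlinarith

lemma bessel {α P : Type} [DecidableEq P] (X : Finset α) (n : ℝ) (hn : 0 < n)
    (hX : (X.card : ℝ) = n) (φ : P → α → ℝ) (t : Finset P)
    (ho : ∀ p ∈ t, ∀ q ∈ t, ∑ x ∈ X, φ p x * φ q x = if p = q then n else 0)
    (f : α → ℝ) (hf : ∀ x, f x ^ 2 ≤ 1) :
    ∑ p ∈ t, ((∑ x ∈ X, f x * φ p x) / n) ^ 2 ≤ 1 := by
  set c : P → ℝ := fun p => (∑ x ∈ X, f x * φ p x) / n with hc
  have hc' : ∀ p, ∑ x ∈ X, f x * φ p x = n * c p := fun p => by
    rw [hc]; field_simp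
  have h0 : 0 ≤ ∑ x ∈ X, (f x - ∑ p ∈ t, c p * φ p x) ^ 2 := sum_nonneg fun _ _ => sq_nonneg _
  have h1 : ∑ x ∈ X, f x * ∑ p ∈ t, c p * φ p x = n * ∑ p ∈ t, c p ^ 2 := by
    simp only [mul_sum]
    rw [sum_comm]
    refine sum_congr rfl fun p _ => ?_
    have : ∑ x ∈ X, f x * (c p * φ p x) = c p * ∑ x ∈ X, f x * φ p x := by
      rw [mul_sum]; exact sum_congr rfl fun x _ => by ring
    rw [this, hc']; ring
  have h2 : ∑ x ∈ X, (∑ p ∈ t, c p * φ p x) ^ 2 = n * ∑ p ∈ t, c p ^ 2 := by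
    simp only [sq, sum_mul_sum]
    rw [sum_comm, mul_sum]
    refine sum_congr rfl fun p hp => ?_
    rw [sum_comm]
    have : ∀ q ∈ t, ∑ x ∈ X, c p * φ p x * (c q * φ q x) = if p = q then c p * c q * n else 0 := by
      intro q hq
      have : ∑ x ∈ X, c p * φ p x * (c q * φ q x) = c p * c q * ∑ x ∈ X, φ p x * φ q x := by
        rw [mul_sum]; exact sum_congr rfl fun x _ => by ring
      rw [this, ho p hp q hq]
      split_ifs <;> simp
    rw [sum_congr rfl this, sum_ite_eq, if_pos hp]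
    ring
  have h3 : ∑ x ∈ X, f x ^ 2 ≤ n := by
    calc ∑ x ∈ X, f x ^ 2 ≤ ∑ x ∈ X, (1 : ℝ) := sum_le_sum fun x _ => hf x
      _ = n := by simp [hX]
  have h4 : ∑ x ∈ X, (f x - ∑ p ∈ t, c p * φ p x) ^ 2 = ∑ x ∈ X, f x ^ 2 -
      2 * ∑ x ∈ X, f x * ∑ p ∈ t, c p * φ p x + ∑ x ∈ X, (∑ p ∈ t, c p * φ p x) ^ 2 := by
    rw [mul_sum, ← sum_sub_distrib, ← sum_add_distrib]
    exact sum_congr rfl fun x _ => by ring
  rw [h4, h1, h2] at h0
  by_contra hcon
  push Not at hcon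
  nlinarith

lemma bessel_one (N : ℕ) (t : Finset ℕ) (ht : t ⊆ range N) (f : Finset ℕ → ℝ)
    (hf : ∀ x, f x ^ 2 ≤ 1) :
    ∑ p ∈ t, ((∑ x ∈ cube N, f x * rad p x) / 2 ^ N) ^ 2 ≤ 1 := by
  refine bessel (cube N) _ (by positivity) (card_cube N) rad t ?_ f hf
  intro p hp q hq
  split_ifs with h
  · subst h
    simp [rad_mul_self, card_cube]
  · exact sum_odd (mem_range.1 (ht hp)) _ fun s => by
      rw [rad_flp_self, rad_flp_ne (Ne.symm h)]; ring

lemma bessel_two (N : ℕ) (t : Finset (ℕ × ℕ)) (ht : ∀ p ∈ t, p.1 < p.2 ∧ p.2 < N)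
    (f : Finset ℕ → ℝ) (hf : ∀ x, f x ^ 2 ≤ 1) :
    ∑ p ∈ t, ((∑ x ∈ cube N, f x * (rad p.1 x * rad p.2 x)) / 2 ^ N) ^ 2 ≤ 1 := by
  refine bessel (P := ℕ × ℕ) (cube N) (2 ^ N) (by positivity) (card_cube N)
    (fun (p : ℕ × ℕ) (x : Finset ℕ) => rad p.1 x * rad p.2 x) t ?_ f hf
  rintro ⟨i, j⟩ hp ⟨k, l⟩ hq
  obtain ⟨h1, h2⟩ := ht _ hp
  obtain ⟨h3, h4⟩ := ht _ hq
  simp only at h1 h2 h3 h4 ⊢
  split_ifs with h
  · obtain ⟨rfl, rfl⟩ := Prod.mk.inj h
    have : ∀ x, rad i x * rad j x * (rad i x * rad j x) = 1 := fun x => by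
      have a := rad_mul_self i x
      have b := rad_mul_self j x
      linear_combination (rad j x * rad j x) * a + b
    simp [this, card_cube]
  · rcases lt_trichotomy i k with hik | hik | hik
    · exact sum_odd (show i < N by omega) _ fun s => by
        rw [rad_flp_self, rad_flp_ne (show j ≠ i by omega), rad_flp_ne (show k ≠ i by omega),
          rad_flp_ne (show l ≠ i by omega)]; ring
    · subst hik
      have hjl : j ≠ l := fun e => h (by rw [e])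
      exact sum_odd h2 _ fun s => by
        rw [rad_flp_self, rad_flp_ne (show i ≠ j by omega), rad_flp_ne hjl.symm]; ring
    · exact sum_odd (show k < N by omega) _ fun s => by
        rw [rad_flp_self, rad_flp_ne (show j ≠ k by omega), rad_flp_ne (show i ≠ k by omega),
          rad_flp_ne (show l ≠ k by omega)]; ring

/-- local Khintchine inequality -/
lemma khin (N : ℕ) (E : Finset (Finset ℕ)) (hE : E ⊆ cube N) (I : Finset ℕ) (hI : I ⊆ range N)
    (ε : ℝ) (hε : 0 < ε) (hm : ε ≤ (E.card : ℝ) / 2 ^ N)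
    (hoff : ∑ p ∈ I.offDiag, ((∑ x ∈ E, rad p.1 x * rad p.2 x) / 2 ^ N) ^ 2 ≤ ε ^ 2 / 4)
    (z : ℕ → ℝ) :
    ε ^ 2 / 16 * Real.sqrt (∑ j ∈ I, z j ^ 2) ≤ (∑ x ∈ E, |rs I z x|) / 2 ^ N := by
  have hp : (0 : ℝ) < 2 ^ N := by positivity
  have hε1 : ε ≤ 1 := by
    refine hm.trans ?_
    rw [div_le_one hp, ← card_cube]
    exact_mod_cast card_le_card hE
  set Z := ∑ j ∈ I, z j ^ 2 with hZ
  have hZ0 : 0 ≤ Z := sum_nonneg fun _ _ => sq_nonneg _
  set q := Real.sqrt Z with hq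
  have hq2 : q ^ 2 = Z := Real.sq_sqrt hZ0
  have hq0 : 0 ≤ q := Real.sqrt_nonneg _
  have hA0 : 0 ≤ (∑ x ∈ E, |rs I z x|) / 2 ^ N :=
    div_nonneg (sum_nonneg fun _ _ => abs_nonneg _) hp.le
  rcases hq0.eq_or_lt with h0 | h0
  · rw [← h0]; simpa using hA0
  set β : ℕ × ℕ → ℝ := fun p => (∑ x ∈ E, rad p.1 x * rad p.2 x) / 2 ^ N with hβ
  have h2 : (∑ x ∈ E, rs I z x ^ 2) / 2 ^ N =
      (E.card : ℝ) / 2 ^ N * Z + ∑ p ∈ I.offDiag, z p.1 * z p.2 * β p := by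
    have e1 : (∑ x ∈ E, rs I z x ^ 2) / 2 ^ N = ∑ p ∈ I ×ˢ I, z p.1 * z p.2 * β p := by
      simp only [rs, sq, sum_mul_sum]
      rw [sum_product, sum_comm, sum_div]
      refine sum_congr rfl fun i _ => ?_
      rw [sum_comm, sum_div]
      refine sum_congr rfl fun j _ => ?_
      simp only [hβ]
      rw [← mul_div_assoc, mul_sum]
      congr 1
      exact sum_congr rfl fun x _ => by ring
    rw [e1, ← diag_union_offDiag, sum_union (disjoint_diag_offDiag I), sum_diag, hZ, mul_sum]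
    congr 1
    refine sum_congr rfl fun i _ => ?_
    simp only [hβ, rad_mul_self, sum_const, nsmul_eq_mul, mul_one]
    ring
  have h3 : (∑ p ∈ I.offDiag, z p.1 * z p.2 * β p) ^ 2 ≤ (ε / 2 * Z) ^ 2 := by
    refine (sum_mul_sq_le_sq_mul_sq _ _ _).trans ?_
    have a1 : ∑ p ∈ I.offDiag, (z p.1 * z p.2) ^ 2 ≤ Z ^ 2 := by
      have : Z ^ 2 = ∑ p ∈ I ×ˢ I, (z p.1 * z p.2) ^ 2 := by
        rw [sq, hZ, sum_mul_sum, sum_product]
        exact sum_congr rfl fun i _ => sum_congr rfl fun j _ => by ring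
      rw [this]
      refine sum_le_sum_of_subset_of_nonneg ?_ fun _ _ _ => sq_nonneg _
      intro p hp
      rw [mem_offDiag] at hp
      exact mem_product.2 ⟨hp.1, hp.2.1⟩
    have a2 : 0 ≤ ∑ p ∈ I.offDiag, β p ^ 2 := sum_nonneg fun _ _ => sq_nonneg _
    calc _ ≤ Z ^ 2 * (ε ^ 2 / 4) := mul_le_mul a1 hoff a2 (sq_nonneg _)
      _ = _ := by ring
  have h4 : -(ε / 2 * Z) ≤ ∑ p ∈ I.offDiag, z p.1 * z p.2 * β p :=
    (abs_le_of_sq_le_sq' h3 (by positivity)).1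
  have h5 : ε / 2 * Z ≤ (∑ x ∈ E, rs I z x ^ 2) / 2 ^ N := by
    rw [h2]; nlinarith
  have h6 : (∑ x ∈ E, rs I z x ^ 4) / 2 ^ N ≤ 3 * Z ^ 2 := by
    rw [div_le_iff₀ hp]
    have := (moments N z I hI).2
    have b : ∑ x ∈ E, rs I z x ^ 4 ≤ ∑ x ∈ cube N, rs I z x ^ 4 :=
      sum_le_sum_of_subset_of_nonneg hE fun _ _ _ => by positivity
    linarith
  set L := 4 / ε * q with hL
  have hL0 : 0 < L := by positivity
  have h7 : ∀ s : ℝ, s ^ 2 ≤ L * |s| + s ^ 4 / L ^ 2 := by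
    intro s
    have a : s ^ 2 = |s| ^ 2 := (sq_abs s).symm
    have b : 0 ≤ s ^ 4 / L ^ 2 := by positivity
    have c : 0 ≤ |s| := abs_nonneg s
    rcases le_total |s| L with h | h
    · nlinarith
    · have : s ^ 2 ≤ s ^ 4 / L ^ 2 := by
        rw [le_div_iff₀ (by positivity)]
        have : L ^ 2 ≤ s ^ 2 := by rw [a]; nlinarith
        nlinarith [sq_nonneg s]
      nlinarith
  have h8 : (∑ x ∈ E, rs I z x ^ 2) / 2 ^ N ≤
      L * ((∑ x ∈ E, |rs I z x|) / 2 ^ N) + ((∑ x ∈ E, rs I z x ^ 4) / 2 ^ N) / L ^ 2 := by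
    have : ∑ x ∈ E, rs I z x ^ 2 ≤ L * (∑ x ∈ E, |rs I z x|) + (∑ x ∈ E, rs I z x ^ 4) / L ^ 2 := by
      rw [mul_sum, sum_div, ← sum_add_distrib]
      exact sum_le_sum fun x _ => h7 _
    calc _ ≤ (L * (∑ x ∈ E, |rs I z x|) + (∑ x ∈ E, rs I z x ^ 4) / L ^ 2) / 2 ^ N :=
          div_le_div_of_nonneg_right this hp.le
      _ = _ := by field_simp
  have h9 : ((∑ x ∈ E, rs I z x ^ 4) / 2 ^ N) / L ^ 2 ≤ ε / 4 * Z := by
    rw [div_le_iff₀ (by positivity)]
    refine h6.trans ?_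
    have : ε / 4 * Z * L ^ 2 = 4 / ε * Z ^ 2 := by
      rw [hL, mul_pow, hq2]; field_simp
    rw [this]
    have : 3 ≤ 4 / ε := by rw [le_div_iff₀ hε]; linarith
    nlinarith [sq_nonneg Z]
  have h10 : ε / 4 * Z ≤ L * ((∑ x ∈ E, |rs I z x|) / 2 ^ N) := by linarith
  have h11 : ε / 4 * Z = L * (ε ^ 2 / 16 * q) := by
    rw [hL, ← hq2]; field_simp; ring
  rw [h11] at h10
  exact le_of_mul_le_mul_left h10 hL0

/-- choosing a subset with prescribed Rademacher averages, by minimising the error -/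
lemma greedy (E : Finset (Finset ℕ)) (n : ℝ) (hn : 0 < n) (I : Finset ℕ) (a : ℕ → ℝ) (c : ℝ)
    (hc : 0 ≤ c) (hEn : (E.card : ℝ) ≤ n)
    (hK : ∀ z : ℕ → ℝ, c * Real.sqrt (∑ j ∈ I, z j ^ 2) ≤ (∑ x ∈ E, |rs I z x|) / n)
    (hB : ∑ j ∈ I, (a j - (∑ x ∈ E, rad j x) / n / 2) ^ 2 ≤ (c / 2) ^ 2) :
    ∃ G ⊆ E, ∑ j ∈ I, (a j - (∑ x ∈ G, rad j x) / n) ^ 2 ≤ I.card / (2 * n) := by
  obtain ⟨G, hG, hmin⟩ := exists_min_image E.powerset
    (fun G => ∑ j ∈ I, (a j - (∑ x ∈ G, rad j x) / n) ^ 2) ⟨∅, by simp⟩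
  rw [mem_powerset] at hG
  refine ⟨G, hG, ?_⟩
  set z : ℕ → ℝ := fun j => a j - (∑ x ∈ G, rad j x) / n with hz
  set δ : ℝ := I.card / (2 * n) with hδ
  have hexp : ∀ (x : Finset ℕ) (t : ℝ), t ^ 2 = 1 → ∑ j ∈ I, (z j + t * rad j x / n) ^ 2 =
      ∑ j ∈ I, z j ^ 2 + 2 / n * (t * rs I z x + δ) := by
    intro x t ht
    have : ∀ j, (z j + t * rad j x / n) ^ 2 = z j ^ 2 + 2 / n * t * (z j * rad j x) + 1 / n ^ 2 := by
      intro j
      have := rad_sq j x
      field_simp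
      linear_combination (rad j x ^ 2) * ht + this
    simp only [this, sum_add_distrib, ← mul_sum, sum_const, nsmul_eq_mul, rs, hδ]
    field_simp
    ring
  have hpos : ∀ u : ℝ, 0 ≤ 2 / n * u → 0 ≤ u := fun u hu =>
    nonneg_of_mul_nonneg_right hu (by positivity) |> fun h => by
      by_contra hneg
      push Not at hneg
      have : 2 / n * u < 0 := mul_neg_of_pos_of_neg (by positivity) hneg
      linarith
  have h1 : ∀ x ∈ E, x ∉ G → rs I z x ≤ δ := by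
    intro x hx hxG
    have := hmin (insert x G) (mem_powerset.2 (insert_subset hx hG))
    have e : ∑ j ∈ I, (a j - (∑ y ∈ insert x G, rad j y) / n) ^ 2 =
        ∑ j ∈ I, (z j + (-1) * rad j x / n) ^ 2 :=
      sum_congr rfl fun j _ => by rw [sum_insert hxG, hz]; ring
    rw [e, hexp x (-1) (by norm_num)] at this
    have := hpos (-1 * rs I z x + δ) (by linarith)
    linarith
  have h2 : ∀ x ∈ G, -δ ≤ rs I z x := by
    intro x hx
    have := hmin (G.erase x) (mem_powerset.2 ((erase_subset _ _).trans hG))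
    have e : ∑ j ∈ I, (a j - (∑ y ∈ G.erase x, rad j y) / n) ^ 2 =
        ∑ j ∈ I, (z j + 1 * rad j x / n) ^ 2 :=
      sum_congr rfl fun j _ => by
        rw [hz]; simp only; rw [← add_sum_erase G (fun y => rad j y) hx]; ring
    rw [e, hexp x 1 (by norm_num)] at this
    have := hpos (1 * rs I z x + δ) (by linarith)
    linarith
  have hδ0 : 0 ≤ δ := by positivity
  have h3 : (∑ x ∈ E, |rs I z x|) / 2 + (∑ x ∈ E, rs I z x) / 2 - δ * n ≤ ∑ x ∈ G, rs I z x := by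
    have e : ∑ x ∈ G, rs I z x = ∑ x ∈ E, if x ∈ G then rs I z x else 0 := by
      rw [← sum_filter, filter_mem_eq_inter, inter_eq_right.2 hG]
    have b : ∑ x ∈ E, (|rs I z x| / 2 + rs I z x / 2 - δ) ≤
        ∑ x ∈ E, if x ∈ G then rs I z x else 0 := by
      refine sum_le_sum fun x hx => ?_
      split_ifs with h
      · have := h2 x h
        rcases abs_cases (rs I z x) with h' | h' <;> linarith [h'.1, h'.2]
      · have := h1 x hx h
        rcases abs_cases (rs I z x) with h' | h' <;> linarith [h'.1, h'.2]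
    rw [sum_sub_distrib, sum_add_distrib, ← sum_div, ← sum_div, sum_const, nsmul_eq_mul] at b
    rw [e]
    nlinarith
  have hsw : ∀ H : Finset (Finset ℕ), ∑ x ∈ H, rs I z x = ∑ j ∈ I, z j * ∑ x ∈ H, rad j x := by
    intro H
    simp only [rs, mul_sum]
    exact sum_comm
  set Z := ∑ j ∈ I, z j ^ 2 with hZ
  have hZ0 : 0 ≤ Z := sum_nonneg fun _ _ => sq_nonneg _
  have h4 : Z = ∑ j ∈ I, z j * (a j - (∑ x ∈ E, rad j x) / n / 2) +
      (∑ x ∈ E, rs I z x) / n / 2 - (∑ x ∈ G, rs I z x) / n := by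
    rw [hsw E, hsw G, hZ, sum_div, sum_div, sum_div, ← sum_add_distrib, ← sum_sub_distrib]
    refine sum_congr rfl fun j _ => ?_
    have : z j ^ 2 = z j * (a j - (∑ x ∈ G, rad j x) / n) := by rw [sq]
    rw [this]; ring
  have h5 : ∑ j ∈ I, z j * (a j - (∑ x ∈ E, rad j x) / n / 2) ≤ Real.sqrt Z * (c / 2) := by
    refine (abs_le_of_sq_le_sq' ?_ (by positivity)).2
    refine (sum_mul_sq_le_sq_mul_sq _ _ _).trans ?_
    rw [mul_pow, Real.sq_sqrt hZ0]
    exact mul_le_mul_of_nonneg_left hB hZ0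
  have h6 := hK z
  have h7 : (∑ x ∈ E, |rs I z x|) / n / 2 + (∑ x ∈ E, rs I z x) / n / 2 - δ ≤
      (∑ x ∈ G, rs I z x) / n := by
    have := div_le_div_of_nonneg_right h3 hn.le
    refine le_trans (le_of_eq ?_) this
    field_simp
  rw [← hZ] at h6
  linarith

end Pool.Agent.H376Z.Nik
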