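import Pool.Agent.H376Z.Nik.Base

set_option autoImplicit false
set_option linter.all false
set_option maxHeartbeats 400000

open Set

namespace Pool.Agent.H376Z.Nik

/-- sets whose Rademacher coefficients vanish from some index on -/
def SS : Set (Set Y) := {b | ∃ j0, ∀ j ≥ j0, rho j b = 0}

lemma SS_union {a b : Set Y} (ha : a ∈ SS) (hb : b ∈ SS) (h : Disjoint a b) : a ∪ b ∈ SS := by
  obtain ⟨i, hi⟩ := ha
  obtain ⟨k, hk⟩ := hb
  refine ⟨max i k, fun j hj => ?_⟩
  rw [rho_add j a b h, hi j (le_of_max_le_left hj), hk j (le_of_max_le_right hj), add_zero]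

lemma SS_diff {a b : Set Y} (ha : a ∈ SS) (hb : b ∈ SS) (h : a ⊆ b) : b \ a ∈ SS := by
  obtain ⟨i, hi⟩ := ha
  obtain ⟨k, hk⟩ := hb
  refine ⟨max i k, fun j hj => ?_⟩
  rw [(rho_add j).diff h, hi j (le_of_max_le_left hj), hk j (le_of_max_le_right hj), sub_zero]

lemma SS_empty : (∅ : Set Y) ∈ SS := ⟨0, fun j _ => (rho_add j).empty⟩

lemma SS_univ : (univ : Set Y) ∈ SS := ⟨0, fun j _ => rho_univ j⟩

lemma approx_in (u : Set Y) (l : Set Y → ℝ) (hl : Add l) (hb : Bdd l) (b0 : Set Y) (ε : ℝ)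
    (hε : 0 < ε) : ∃ b ⊆ u, b ∈ SS ∧ |l b - l (b0 ∩ u)| ≤ ε := by
  by_cases hu : 0 < dens u
  · obtain ⟨E, hEu, hE, hO⟩ := halving (fun E => 0 < dens E) big_split l hl hb ε hε u hu
    obtain ⟨G, hG, j0, hj⟩ := star E hE ((b0 ∩ u) \ E)
    have hd : Disjoint ((b0 ∩ u) \ E) G := disjoint_sdiff_left.mono_right hG
    refine ⟨((b0 ∩ u) \ E) ∪ G, union_subset (diff_subset.trans inter_subset_right) (hG.trans hEu),
      ⟨j0, fun j h => by rw [rho_add j _ _ hd, hj j h]⟩, ?_⟩
    have h1 := hl ((b0 ∩ u) ∩ E) ((b0 ∩ u) \ E) (disjoint_sdiff_right.mono_left inter_subset_right)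
    rw [inter_union_diff] at h1
    rw [hl _ _ hd, h1, abs_le]
    have h2 := hO G hG _ (inter_subset_right (s := b0 ∩ u))
    have h3 := hO _ (inter_subset_right (s := b0 ∩ u)) G hG
    constructor <;> linarith
  · exact ⟨b0 ∩ u, inter_subset_right, ⟨0, fun j _ => rho_null hu inter_subset_right j⟩,
      by simpa using hε.le⟩

/-- `b` is a union of classes of the partition `p` -/
def Sat (p : Y → ℕ) (b : Set Y) : Prop := ∀ y y', p y = p y' → y ∈ b → y' ∈ b

/-- the partition `q` refines the partition `p` -/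
def Ref (q p : Y → ℕ) : Prop := ∀ y y', q y = q y' → p y = p y'

/-- finite partitions with classes in `SS` -/
def Good (p : Y → ℕ) : Prop := (range p).Finite ∧ ∀ v, p ⁻¹' {v} ∈ SS

lemma Sat.ref {p q : Y → ℕ} {b : Set Y} (h : Sat p b) (hq : Ref q p) : Sat q b :=
  fun y y' e => h y y' (hq y y' e)

lemma Ref.rfl' (p : Y → ℕ) : Ref p p := fun _ _ h => h

lemma Ref.trans {p q r : Y → ℕ} (h : Ref r q) (h' : Ref q p) : Ref r p :=
  fun y y' e => h' y y' (h y y' e)

lemma sat_empty (p : Y → ℕ) : Sat p ∅ := fun _ _ _ h => h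

lemma good_zero : Good fun _ => 0 := by
  refine ⟨(finite_singleton 0).subset (by rintro _ ⟨y, rfl⟩; rfl), fun v => ?_⟩
  by_cases h : v = 0
  · subst h
    convert SS_univ using 1
    ext y; simp
  · convert SS_empty using 1
    ext y; simp [Ne.symm h]

lemma inter_pre_insert (p : Y → ℕ) (c : Set Y) (v : ℕ) (t : Finset ℕ) :
    c ∩ p ⁻¹' (↑(insert v t) : Set ℕ) = (c ∩ p ⁻¹' {v}) ∪ (c ∩ p ⁻¹' (t : Set ℕ)) := by
  ext y; simp; tauto

lemma inter_pre_disj (p : Y → ℕ) (c : Set Y) {v : ℕ} {t : Finset ℕ} (h : v ∉ t) :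
    Disjoint (c ∩ p ⁻¹' {v}) (c ∩ p ⁻¹' (t : Set ℕ)) := by
  rw [Set.disjoint_left]
  rintro y ⟨-, h1⟩ ⟨-, h2⟩
  have : p y = v := h1
  exact h (this ▸ h2)

lemma inter_pre_all {p : Y → ℕ} (h : (range p).Finite) (c : Set Y) :
    c ∩ p ⁻¹' (h.toFinset : Set ℕ) = c := by
  ext y; simp

lemma Good.sat {p : Y → ℕ} (hp : Good p) {b : Set Y} (hb : Sat p b) : b ∈ SS := by
  have key : ∀ t : Finset ℕ, b ∩ p ⁻¹' (t : Set ℕ) ∈ SS := by
    intro t
    induction t using Finset.induction_on with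
    | empty => simpa using SS_empty
    | insert v t hv ih =>
      rw [inter_pre_insert]
      refine SS_union ?_ ih (inter_pre_disj p b hv)
      rcases (b ∩ p ⁻¹' {v}).eq_empty_or_nonempty with h | ⟨y, hy, hy'⟩
      · rw [h]; exact SS_empty
      · convert hp.2 v using 1
        refine inter_eq_right.2 fun z hz => hb y z ?_ hy
        exact (show p y = v from hy').trans (show p z = v from hz).symm
  have := key hp.1.toFinset
  rwa [inter_pre_all] at this

lemma Add.sum_pre {l : Set Y → ℝ} (hl : Add l) {p : Y → ℕ} (h : (range p).Finite) (c : Set Y) :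
    l c = ∑ v ∈ h.toFinset, l (c ∩ p ⁻¹' {v}) := by
  have key : ∀ t : Finset ℕ, l (c ∩ p ⁻¹' (t : Set ℕ)) = ∑ v ∈ t, l (c ∩ p ⁻¹' {v}) := by
    intro t
    induction t using Finset.induction_on with
    | empty => simpa using hl.empty
    | insert v t hv ih =>
      rw [inter_pre_insert, hl _ _ (inter_pre_disj p c hv), ih, Finset.sum_insert hv]
  rw [← key, inter_pre_all]

lemma refine1 {p : Y → ℕ} (hp : Good p) (l : Set Y → ℝ) (hl : Add l) (hb : Bdd l) (b0 : Set Y)
    (ε : ℝ) (hε : 0 < ε) : ∃ q b, Good q ∧ Ref q p ∧ Sat q b ∧ |l b - l b0| ≤ ε := by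
  classical
  set n : ℝ := (hp.1.toFinset.card : ℝ) with hn
  have hn0 : 0 ≤ n := by positivity
  choose f hf1 hf2 hf3 using fun v => approx_in (p ⁻¹' {v}) l hl hb b0 (ε / (n + 1)) (by positivity)
  let b : Set Y := {y | y ∈ f (p y)}
  have hbf : ∀ v, b ∩ p ⁻¹' {v} = f v := by
    intro v
    ext y
    constructor
    · rintro ⟨h1, h2⟩
      have : p y = v := h2
      exact this ▸ h1
    · intro h
      have : p y = v := hf1 v h
      exact ⟨show y ∈ f (p y) from this ▸ h, this⟩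
  let q : Y → ℕ := fun y => if y ∈ b then 2 * p y + 1 else 2 * p y
  refine ⟨q, b, ⟨?_, fun w => ?_⟩, ?_, ?_, ?_⟩
  · refine ((hp.1.image fun v => 2 * v + 1).union (hp.1.image fun v => 2 * v)).subset ?_
    rintro _ ⟨y, rfl⟩
    by_cases h : y ∈ b
    · exact Or.inl ⟨p y, mem_range_self y, by simp [q, h]⟩
    · exact Or.inr ⟨p y, mem_range_self y, by simp [q, h]⟩
  · obtain ⟨v, rfl | rfl⟩ := Nat.even_or_odd' w
    · convert SS_diff (hf2 v) (hp.2 v) (hf1 v) using 1
      rw [← hbf]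
      ext y
      by_cases h : y ∈ b
      · simp only [mem_preimage, mem_singleton_iff, q, h, if_true, mem_diff, mem_inter_iff,
          true_and]
        constructor
        · intro e; omega
        · intro e; exact absurd e.1 e.2
      · simp only [mem_preimage, mem_singleton_iff, q, h, if_false, mem_diff, mem_inter_iff,
          false_and, not_false_iff, and_true]
        omega
    · convert hf2 v using 1
      rw [← hbf]
      ext y
      by_cases h : y ∈ b
      · simp only [mem_preimage, mem_singleton_iff, q, h, if_true, mem_inter_iff, true_and]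
        omega
      · simp only [mem_preimage, mem_singleton_iff, q, h, if_false, mem_inter_iff, false_and,
          iff_false]
        omega
  · intro y y' e
    simp only [q] at e
    split_ifs at e <;> omega
  · intro y y' e hy
    by_contra h
    simp only [q, hy, h, if_true, if_false] at e
    omega
  · rw [hl.sum_pre hp.1 b, hl.sum_pre hp.1 b0, ← Finset.sum_sub_distrib]
    refine (Finset.abs_sum_le_sum_abs _ _).trans ?_
    refine (Finset.sum_le_sum fun v _ => (show _ ≤ ε / (n + 1) by rw [hbf]; exact hf3 v)).trans ?_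
    rw [Finset.sum_const, nsmul_eq_mul, ← hn, ← mul_div_assoc, div_le_iff₀ (by positivity)]
    nlinarith

lemma refineN {p : Y → ℕ} (hp : Good p) (l : ℕ → Set Y → ℝ) (hl : ∀ i, Add (l i))
    (hb : ∀ i, Bdd (l i)) (b0 : ℕ → Set Y) (ε : ℝ) (hε : 0 < ε) (n : ℕ) :
    ∃ q, Good q ∧ Ref q p ∧ ∀ i < n, ∃ b, Sat q b ∧ |l i b - l i (b0 i)| ≤ ε := by
  induction n with
  | zero => exact ⟨p, hp, Ref.rfl' p, fun i hi => absurd hi (Nat.not_lt_zero i)⟩
  | succ n ih =>
    obtain ⟨q, hq, hqp, h⟩ := ih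
    obtain ⟨r, b, hr, hrq, hs, he⟩ := refine1 hq (l n) (hl n) (hb n) (b0 n) ε hε
    refine ⟨r, hr, hrq.trans hqp, fun i hi => ?_⟩
    rcases (Nat.lt_succ_iff.1 hi).eq_or_lt with rfl | hi'
    · exact ⟨b, hs, he⟩
    · obtain ⟨b', h1, h2⟩ := h i hi'
      exact ⟨b', h1.ref hrq, h2⟩

end Pool.Agent.H376Z.Nik
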